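import Pool.Agent.Lib.SH95.Pin

/-!
# The kernel gives the conditional probabilities
-/

set_option autoImplicit false
set_option linter.unusedSectionVars false

open MeasureTheory Filter Topology

namespace Pool.Agent.SH95

open Finset Pool.Agent.FD82

section

variable {V : Type} {G : SimpleGraph V} {k m : ℕ} {Sy : Type} [Fintype Sy]
  {sy : Sy → Fin (k + 1)} {μ : Measure (Cfg V k)} [IsProbabilityMeasure μ]
  [DecidableRel (NN μ sy)] [DecidableEq (V × Sy)]

theorem cond_pk (hG : Geo G) (hM : Model G k m Sy sy (NN μ sy) (qq μ sy) (ff μ sy))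
    (hP : Prd μ sy)
    (h0 : ∀ (w : V) (a : Fin (k + 1)), a ≠ 0 → (∀ c, sy c ≠ a) → μ.real {ω | ω w = a} = 0) :
    Cond μ (pk hG sy (NN μ sy) (qq μ sy) (ff μ sy)) := by
  classical
  intro A v hv y a
  -- the probabilities
  set P : Fin (k + 1) → ℝ := fun a => μ.real {ω | (∀ w ∈ A, ω w = y w) ∧ ω v = a} with hPd
  set PA : ℝ := μ.real {ω | ∀ w ∈ A, ω w = y w} with hPA
  have hPA0 : 0 ≤ PA := measureReal_nonneg
  have hP0 : ∀ a, 0 ≤ P a := fun a => measureReal_nonneg
  have hPle : ∀ a, P a ≤ PA := fun a => measureReal_mono fun ω hω => hω.1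
  set z : Sy → ℝ := pzi hG sy (NN μ sy) (qq μ sy) (ff μ sy) v (A : Set V) y with hz
  change P a = kk sy z a * PA
  by_cases hgood : ∀ w ∈ A, y w = 0 ∨ ∃ c, y w = sy c
  swap
  · push Not at hgood
    obtain ⟨w, hw, hw0, hwc⟩ := hgood
    have h1 : PA = 0 := by
      refine le_antisymm ?_ hPA0
      rw [← h0 w (y w) hw0 (fun c hc => hwc c hc.symm)]
      exact measureReal_mono fun ω hω => hω w hw
    have h2 : P a = 0 := le_antisymm ((hPle a).trans h1.le) (hP0 a)
    rw [h1, h2, mul_zero]
  -- the particles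
  set I : Finset (V × Sy) := (A ×ˢ univ).filter fun x => y x.1 = sy x.2 with hI
  set K : Finset (V × Sy) := (A ×ˢ univ).filter fun x => ∀ c, y x.1 ≠ sy c with hK
  have mI : ∀ x : V × Sy, x ∈ I ↔ x.1 ∈ A ∧ y x.1 = sy x.2 := by
    intro x
    rw [hI, mem_filter, mem_product]
    simp
  have mK : ∀ x : V × Sy, x ∈ K ↔ x.1 ∈ A ∧ ∀ c, y x.1 ≠ sy c := by
    intro x
    rw [hK, mem_filter, mem_product]
    simp
  have hIK : Disjoint I K := by
    rw [disjoint_left]
    intro x hx hx'
    exact ((mK x).1 hx').2 _ ((mI x).1 hx).2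
  have hae : ∀ᵐ ω ∂μ, ∀ w ∈ A, ω w = 0 ∨ ∃ c, ω w = sy c := by
    refine (ae_ball_iff A.countable_toSet).2 fun w _ => ?_
    have h1 : ∀ᵐ ω ∂μ, ∀ a : Fin (k + 1), a ≠ 0 → (∀ c, sy c ≠ a) → ω w ≠ a := by
      rw [ae_all_iff]
      intro a
      by_cases ha : a ≠ 0 ∧ ∀ c, sy c ≠ a
      · have h2 := h0 w a ha.1 ha.2
        rw [measureReal_eq_zero_iff] at h2
        have h3 : ∀ᵐ ω ∂μ, ω w ≠ a := by
          rw [ae_iff]
          simpa using h2
        filter_upwards [h3] with ω hω _ _ using hω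
      · refine Eventually.of_forall fun ω b1 b2 => absurd ⟨b1, b2⟩ ha
    filter_upwards [h1] with ω hω
    by_contra hc
    push Not at hc
    exact hω (ω w) hc.1 (fun c hcc => hc.2 c hcc.symm) rfl
  have hE : ∀ B : Set (Cfg V k), μ.real {ω | (∀ w ∈ A, ω w = y w) ∧ ω ∈ B} =
      μ.real {ω | ((∀ x ∈ I, ω x.1 = sy x.2) ∧ ∀ x ∈ K, ω x.1 ≠ sy x.2) ∧ ω ∈ B} := by
    intro B
    refine measureReal_congr ?_
    filter_upwards [hae] with ω hω
    refine propext (and_congr_left fun _ => ?_)
    constructor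
    · intro h
      refine ⟨fun x hx => ?_, fun x hx => ?_⟩
      · rw [h _ ((mI x).1 hx).1]
        exact ((mI x).1 hx).2
      · rw [h _ ((mK x).1 hx).1]
        exact ((mK x).1 hx).2 x.2
    · rintro ⟨h1, h2⟩ w hw
      by_cases hc : ∃ c, y w = sy c
      · obtain ⟨c, hc⟩ := hc
        rw [hc]
        exact h1 (w, c) ((mI _).2 ⟨hw, hc⟩)
      · have hw0 : y w = 0 := (hgood w hw).resolve_right hc
        push Not at hc
        rw [hw0]
        refine (hω w hw).resolve_right ?_
        rintro ⟨c, hcc⟩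
        exact h2 (w, c) ((mK _).2 ⟨hw, hc⟩) hcc
  have hPAe : PA = MK μ sy I K := by
    have h1 := hE Set.univ
    simp only [Set.mem_univ, and_true] at h1
    exact h1
  have hPe : ∀ b, P (sy b) = MK μ sy (insert (v, b) I) K := by
    intro b
    have h1 := hE {ω | ω v = sy b}
    change P (sy b) = _ at h1
    rw [h1]
    unfold MK
    congr 1
    ext ω
    simp only [Set.mem_ofPred_eq, mem_insert, forall_eq_or_imp]
    tauto
  have hvI : ∀ b, (v, b) ∉ I := fun b hb => hv ((mI _).1 hb).1
  have hvK : ∀ b, (v, b) ∉ K := fun b hb => hv ((mK _).1 hb).1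
  set J : Finset (V × Sy) := rmI μ sy I K with hJ
  have mJ : ∀ x : V × Sy, x ∈ J ↔ x ∈ JS sy (NN μ sy) v (A : Set V) y := by
    intro x
    rw [hJ, mem_rmI, mK]
    constructor
    · rintro ⟨⟨a1, a2⟩, a3⟩
      refine ⟨a1, fun he => hv (he ▸ a1), a2, fun u hu _ c hc hN => ?_⟩
      exact a3 (u, c) ((mI _).2 ⟨hu, hc⟩) (NN_symm μ sy hN)
    · rintro ⟨a1, _, a3, a4⟩
      refine ⟨⟨a1, a3⟩, fun x' hx' hN => ?_⟩
      have h1 := (mI x').1 hx'
      exact a4 x'.1 h1.1 (fun he => hv (he ▸ h1.1)) x'.2 h1.2 (NN_symm μ sy hN)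
  have hcp : ∀ b, cp sy (NN μ sy) (A : Set V) y (v, b) ↔ ∀ x ∈ I, ¬ NN μ sy x (v, b) := by
    intro b
    constructor
    · intro h x hx hN
      have h1 := (mI x).1 hx
      exact h x.1 h1.1 (fun he => hv ((show x.1 = v from he) ▸ h1.1)) x.2 h1.2
        (NN_symm μ sy hN)
    · intro h u hu _ c hc hN
      exact h (u, c) ((mI _).2 ⟨hu, hc⟩) (NN_symm μ sy hN)
  have hzb : ∀ b, z b = if cp sy (NN μ sy) (A : Set V) y (v, b) then
      rr (NN μ sy) (qq μ sy) (ff μ sy) (v, b) J else 0 := by
    intro b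
    refine tendsto_nhds_unique (pz_tendsto hG hM v (A : Set V) y b) ?_
    refine tendsto_const_nhds.congr' ?_
    filter_upwards [eventually_ge_atTop (J.sup fun x => G.dist v x.1)] with n hn
    have h1 : Jn hG sy (NN μ sy) n v (A : Set V) y = J := by
      ext x
      rw [mem_Jn, ← mJ]
      constructor
      · exact fun h => h.2
      · intro h
        exact ⟨(le_sup (f := fun x : V × Sy => G.dist v x.1) h).trans hn, h⟩
    unfold pz
    rw [h1]
  have claim1 : ∀ b, P (sy b) = z b * PA := by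
    intro b
    rw [hPe, hPAe, hzb]
    by_cases hInd : Ind μ sy I
    · by_cases hc : cp sy (NN μ sy) (A : Set V) y (v, b)
      · rw [if_pos hc]
        have hInd' : Ind μ sy (insert (v, b) I) := (ind_insert μ sy).2 ⟨hInd, (hcp b).1 hc⟩
        rw [MK_eq μ sy hP K.card (insert (v, b) I) K le_rfl (by
          rw [disjoint_insert_left]
          exact ⟨hvK b, hIK⟩) hInd', MK_eq μ sy hP K.card I K le_rfl hIK hInd,
          prod_insert (hvI b)]
        have e1 : rmI μ sy (insert (v, b) I) K = rm (NN μ sy) (v, b) J := by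
          ext x
          have mrm : x ∈ rm (NN μ sy) (v, b) J ↔ x ∈ J ∧ ¬ NN μ sy (v, b) x := by
            unfold rm
            exact mem_filter
          rw [mrm, hJ, mem_rmI, mem_rmI]
          simp only [mem_insert, forall_eq_or_imp]
          tauto
        rw [e1, rr, uu]
        have := (hM.void.pos J).ne'
        rw [← hJ]
        field_simp
      · rw [if_neg hc, zero_mul]
        exact MK_of_not_ind μ sy _ _ fun hh => hc ((hcp b).2 ((ind_insert μ sy).1 hh).2)
    · rw [MK_of_not_ind μ sy _ _ hInd, mul_zero]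
      exact MK_of_not_ind μ sy _ _ fun hh => hInd ((ind_insert μ sy).1 hh).1
  have claim2 : ∀ a, a ≠ 0 → (∀ c, sy c ≠ a) → P a = 0 := by
    intro a ha hc
    refine le_antisymm ?_ (hP0 a)
    rw [← h0 v a ha hc]
    exact measureReal_mono fun ω hω => hω.2
  have claim3 : ∑ a, P a = PA := by
    have h1 : {ω : Cfg V k | ∀ w ∈ A, ω w = y w} =
        ⋃ a ∈ (univ : Finset (Fin (k + 1))), {ω | (∀ w ∈ A, ω w = y w) ∧ ω v = a} := by
      ext ω
      simp
    rw [hPA, h1, measureReal_biUnion_finset]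
    · intro a _ a' _ haa
      rw [Function.onFun, Set.disjoint_left]
      intro ω hω hω'
      exact haa (hω.2.symm.trans hω'.2)
    · intro a _
      exact (measurableSet_cyl A y).inter (measurableSet_site v a)
  have claim4 : P 0 = (1 - ∑ b, z b) * PA := by
    have h1 : ∑ a, P a = P 0 + ∑ b, P (sy b) := by
      have h2 : ∀ a, P a = (if a = 0 then P 0 else 0) + ∑ b, if sy b = a then P (sy b) else 0 := by
        intro a
        by_cases ha : a = 0
        · rw [if_pos ha, ha]
          have h3 : ∑ b, (if sy b = 0 then P (sy b) else 0) = 0 :=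
            sum_eq_zero fun b _ => if_neg (hM.ne0 b)
          rw [h3, add_zero]
        · rw [if_neg ha, zero_add]
          by_cases hc : ∃ c, sy c = a
          · obtain ⟨c, rfl⟩ := hc
            rw [sum_eq_single c]
            · rw [if_pos rfl]
            · intro b _ hb
              exact if_neg fun he => hb (hM.inj he)
            · intro h
              exact absurd (mem_univ c) h
          · push Not at hc
            rw [claim2 a ha hc]
            exact (sum_eq_zero fun b _ => if_neg (hc b)).symm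
      rw [sum_congr rfl fun a _ => h2 a, sum_add_distrib, sum_comm]
      simp
    rw [claim3] at h1
    have h2 : ∑ b, P (sy b) = (∑ b, z b) * PA := by
      rw [sum_mul]
      exact sum_congr rfl fun b _ => claim1 b
    rw [h2] at h1
    linarith
  unfold kk
  by_cases ha : a = 0
  · rw [if_pos ha, ha]
    have h3 : ∑ b, (if sy b = 0 then z b else 0) = 0 :=
      sum_eq_zero fun b _ => if_neg (hM.ne0 b)
    rw [h3, add_zero]
    exact claim4
  · rw [if_neg ha, zero_add]
    by_cases hc : ∃ c, sy c = a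
    · obtain ⟨c, rfl⟩ := hc
      rw [sum_eq_single c]
      · rw [if_pos rfl]
        exact claim1 c
      · intro b _ hb
        exact if_neg fun he => hb (hM.inj he)
      · intro h
        exact absurd (mem_univ c) h
    · push Not at hc
      rw [claim2 a ha hc, sum_eq_zero fun b _ => if_neg (hc b), zero_mul]

end

end Pool.Agent.SH95
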