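import Mathlib

/-!
# Void probabilities of hard-core processes

`f K` is the probability that no particle of the finite set `K` is present; a particle `x` outside
of `K` is present and `K` is void with probability `q x * f (K \ N x)`, `N x` the particles in
conflict with `x`.  `r x K` is the conditional probability of `x`, given that `K` is void.

* `u_mono`, `u_super`: `r x K` is increasing in `K`, and `log (r x K)` has increasing differences.
* `sum_insert_le`: making `w` void changes the sum of the probabilities of the particles of a set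
  `T` (disjoint from `K` and `w`) by at most `1`.
-/

set_option autoImplicit false
set_option linter.unusedSectionVars false

namespace Pool.Agent.SH95

open Finset

variable {X : Type} [DecidableEq X] {N : X → X → Prop} [DecidableRel N] {q : X → ℝ}
  {f : Finset X → ℝ}

/-- The particles of `K` which are compatible with `x`. -/
def rm (N : X → X → Prop) [DecidableRel N] (x : X) (K : Finset X) : Finset X :=
  K.filter fun y => ¬ N x y

/-- The axioms for void probabilities. -/
structure IsVoid (N : X → X → Prop) [DecidableRel N] (q : X → ℝ) (f : Finset X → ℝ) : Prop where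
  symm : ∀ x y, N x y → N y x
  q0 : ∀ x, 0 < q x
  one : f ∅ = 1
  pos : ∀ K, 0 < f K
  step : ∀ K x, x ∉ K → f (insert x K) = f K - q x * f (rm N x K)

/-- The conditional probability of `x` given that `K` is void, divided by `q x`. -/
noncomputable def uu (N : X → X → Prop) [DecidableRel N] (f : Finset X → ℝ) (x : X)
    (K : Finset X) : ℝ := f (rm N x K) / f K

/-- The conditional probability of `x` given that `K` is void. -/
noncomputable def rr (N : X → X → Prop) [DecidableRel N] (q : X → ℝ) (f : Finset X → ℝ) (x : X)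
    (K : Finset X) : ℝ := q x * uu N f x K

theorem rm_subset (x : X) (K : Finset X) : rm N x K ⊆ K := filter_subset _ _

theorem rm_insert_of (x y : X) (K : Finset X) (h : N x y) :
    rm N x (insert y K) = rm N x K := by
  rw [rm, filter_insert, if_neg (not_not.2 h)]
  rfl

theorem rm_insert_not (x y : X) (K : Finset X) (h : ¬ N x y) :
    rm N x (insert y K) = insert y (rm N x K) := by
  rw [rm, filter_insert, if_pos h]
  rfl

theorem rm_comm (x y : X) (K : Finset X) : rm N x (rm N y K) = rm N y (rm N x K) := by
  rw [rm, rm, rm, rm, filter_filter, filter_filter]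
  exact filter_congr fun z _ => and_comm

namespace IsVoid

variable (h : IsVoid N q f)
include h

theorem uu_pos (x : X) (K : Finset X) : 0 < uu N f x K := div_pos (h.pos _) (h.pos _)

theorem rr_pos (x : X) (K : Finset X) : 0 < rr N q f x K := mul_pos (h.q0 x) (h.uu_pos x K)

theorem step' (x : X) (K : Finset X) (hx : x ∉ K) :
    f (insert x K) = f K * (1 - rr N q f x K) := by
  rw [h.step K x hx, rr, uu]
  have := (h.pos K).ne'
  field_simp

theorem rr_lt (x : X) (K : Finset X) (hx : x ∉ K) : rr N q f x K < 1 := by
  have h1 := h.step' x K hx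
  have h2 := h.pos (insert x K)
  rw [h1] at h2
  have h3 := (pos_iff_pos_of_mul_pos h2).1 (h.pos K)
  linarith

/-- Adding a void particle which is in conflict with `x`. -/
theorem uu_insert_of (x y : X) (K : Finset X) (hy : y ∉ K) (hN : N x y) :
    uu N f x (insert y K) = uu N f x K / (1 - rr N q f y K) := by
  rw [uu, rm_insert_of x y K hN, h.step' y K hy, uu, div_div]

/-- Adding a void particle which is compatible with `x`. -/
theorem uu_insert_not (x y : X) (K : Finset X) (hy : y ∉ K) (hN : ¬ N x y) :
    uu N f x (insert y K) = uu N f x K * (1 - rr N q f y (rm N x K)) / (1 - rr N q f y K) := by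
  rw [uu, rm_insert_not x y K hN, h.step' y K hy,
    h.step' y (rm N x K) (fun hc => hy (rm_subset x K hc)), uu]
  have h1 := (h.pos K).ne'
  have h2 : (1 - rr N q f y K) ≠ 0 := by linarith [h.rr_lt y K hy]
  field_simp

/-- One step of the comparison of `1 - r`. -/
theorem one_sub_step {y z : X} {K K' : Finset X} (hKK : K ⊆ K') (hy : y ∉ K')
    (m1 : uu N f y K ≤ uu N f y K') (m2 : uu N f y K ≤ uu N f y (insert z K))
    (m3 : uu N f y (insert z K) * uu N f y K' ≤ uu N f y (insert z K') * uu N f y K) :
    (1 - rr N q f y (insert z K')) * (1 - rr N q f y K) ≤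
      (1 - rr N q f y (insert z K)) * (1 - rr N q f y K') := by
  have q0 := h.q0 y
  have r0 := h.rr_pos y K
  have r0' := h.rr_pos y K'
  have r1 : rr N q f y K < 1 := h.rr_lt y K fun hc => hy (hKK hc)
  have e1 : rr N q f y K ≤ rr N q f y K' := mul_le_mul_of_nonneg_left m1 q0.le
  have e2 : rr N q f y K ≤ rr N q f y (insert z K) := mul_le_mul_of_nonneg_left m2 q0.le
  have e3 : rr N q f y (insert z K) * rr N q f y K' ≤ rr N q f y (insert z K') * rr N q f y K := by
    unfold rr
    nlinarith [mul_le_mul_of_nonneg_left m3 (mul_pos q0 q0).le]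
  set r := rr N q f y K
  set r' := rr N q f y K'
  set t := rr N q f y (insert z K)
  set t' := rr N q f y (insert z K')
  -- t = r s, t' = r' s'
  have e4 : t * r' ≤ t' * r := e3
  -- (1 - t') (1 - r) ≤ (1 - t) (1 - r')
  have e5 : (t - r) * r' ≤ (t' - r') * r := by nlinarith
  have e6 : t - r ≤ t' - r' := by
    have h1 : (t - r) * r ≤ (t - r) * r' := mul_le_mul_of_nonneg_left e1 (by linarith)
    have h2 : (t - r) * r ≤ (t' - r') * r := h1.trans e5
    exact le_of_mul_le_mul_right h2 r0
  nlinarith

/-- The comparison of `1 - r` for a set `D` added to `A ⊆ B`. -/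
theorem one_sub_chain (n : ℕ)
    (H1 : ∀ K K' x, K ⊆ K' → K'.card ≤ n + 1 → uu N f x K ≤ uu N f x K')
    (H2 : ∀ K K' x y, K ⊆ K' → K'.card ≤ n → y ∉ K' →
      uu N f x (insert y K) * uu N f x K' ≤ uu N f x (insert y K') * uu N f x K)
    {y : X} {A B : Finset X} (hAB : A ⊆ B) (D : Finset X) :
    Disjoint B D → y ∉ B ∪ D → (B ∪ D).card ≤ n + 1 →
      (1 - rr N q f y (B ∪ D)) * (1 - rr N q f y A) ≤
        (1 - rr N q f y (A ∪ D)) * (1 - rr N q f y B) := by
  induction D using Finset.induction_on with
  | empty =>
    intro _ _ _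
    rw [union_empty, union_empty, mul_comm]
  | insert z D hz ih =>
    intro hd hy hc
    rw [union_insert, mem_insert, not_or] at hy
    have hzB : z ∉ B := disjoint_right.1 hd (mem_insert_self z D)
    have hzBD : z ∉ B ∪ D := by
      rw [mem_union, not_or]
      exact ⟨hzB, hz⟩
    have hd' : Disjoint B D := hd.mono_right (subset_insert z D)
    rw [union_insert, card_insert_of_notMem hzBD] at hc
    have hc' : (B ∪ D).card ≤ n := by omega
    have ih' := ih hd' hy.2 (by omega)
    have hAD : A ∪ D ⊆ B ∪ D := union_subset_union_left hAB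
    have s1 := h.one_sub_step (y := y) (z := z) hAD hy.2 (H1 _ _ _ hAD (by omega))
      (H1 _ _ _ (subset_insert _ _) (by
        have hzAD : z ∉ A ∪ D := fun hh => hzBD (hAD hh)
        rw [card_insert_of_notMem hzAD]
        have := card_le_card hAD
        omega)) (H2 _ _ _ _ hAD hc' hzBD)
    rw [union_insert, union_insert]
    -- multiply
    have p1 : 0 < 1 - rr N q f y (B ∪ D) := by linarith [h.rr_lt y _ hy.2]
    have hyAD : y ∉ A ∪ D := fun hh => hy.2 (hAD hh)
    have p2 : 0 < 1 - rr N q f y (A ∪ D) := by linarith [h.rr_lt y _ hyAD]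
    have hyA : y ∉ A := fun hh => hyAD (mem_union_left _ hh)
    have p3 : 0 < 1 - rr N q f y A := by linarith [h.rr_lt y _ hyA]
    have hyB : y ∉ B := fun hh => hy.2 (mem_union_left _ hh)
    have p4 : 0 < 1 - rr N q f y B := by linarith [h.rr_lt y _ hyB]
    have hyzA : y ∉ insert z (A ∪ D) := by
      rw [mem_insert, not_or]
      exact ⟨hy.1, hyAD⟩
    have p5 : 0 < 1 - rr N q f y (insert z (A ∪ D)) := by linarith [h.rr_lt y _ hyzA]
    set a := 1 - rr N q f y A
    set b := 1 - rr N q f y B
    set ad := 1 - rr N q f y (A ∪ D)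
    set bd := 1 - rr N q f y (B ∪ D)
    set adz := 1 - rr N q f y (insert z (A ∪ D))
    set bdz := 1 - rr N q f y (insert z (B ∪ D))
    -- s1 : bdz * ad ≤ adz * bd, ih' : bd * a ≤ ad * b; want bdz * a ≤ adz * b
    have t1 : (bdz * a) * (ad * bd) ≤ (adz * b) * (ad * bd) := by
      calc (bdz * a) * (ad * bd) = (bdz * ad) * (bd * a) := by ring
        _ ≤ (adz * bd) * (ad * b) := by
            have hbdz : 0 ≤ bd * a := (mul_pos p1 p3).le
            calc (bdz * ad) * (bd * a) ≤ (adz * bd) * (bd * a) :=
                  mul_le_mul_of_nonneg_right s1 hbdz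
              _ ≤ (adz * bd) * (ad * b) :=
                  mul_le_mul_of_nonneg_left ih' (mul_pos p5 p1).le
        _ = (adz * b) * (ad * bd) := by ring
    exact le_of_mul_le_mul_right t1 (mul_pos p2 p1)

theorem main_ind (n : ℕ) :
    (∀ K K' x, K ⊆ K' → K'.card ≤ n → uu N f x K ≤ uu N f x K') ∧
    ∀ K K' x y, K ⊆ K' → K'.card ≤ n → y ∉ K' →
      uu N f x (insert y K) * uu N f x K' ≤ uu N f x (insert y K') * uu N f x K := by
  induction n with
  | zero =>
    refine ⟨fun K K' x hKK hc => ?_, fun K K' x y hKK hc hy => ?_⟩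
    · have h1 : K' = ∅ := card_eq_zero.1 (Nat.le_zero.1 hc)
      subst h1
      rw [subset_empty.1 hKK]
    · have h1 : K' = ∅ := card_eq_zero.1 (Nat.le_zero.1 hc)
      subst h1
      rw [subset_empty.1 hKK]
  | succ n ih =>
    obtain ⟨I1, I2⟩ := ih
    have J0 : ∀ K x y, K.card ≤ n → y ∉ K → uu N f x K ≤ uu N f x (insert y K) := by
      intro K x y hc hy
      have hp : 0 < 1 - rr N q f y K := by linarith [h.rr_lt y K hy]
      have hu := h.uu_pos x K
      by_cases hN : N x y
      · rw [h.uu_insert_of x y K hy hN, le_div_iff₀ hp]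
        nlinarith [h.rr_pos y K]
      · rw [h.uu_insert_not x y K hy hN, le_div_iff₀ hp]
        have h1 : uu N f y (rm N x K) ≤ uu N f y K := I1 _ _ _ (rm_subset x K) hc
        have h2 : rr N q f y (rm N x K) ≤ rr N q f y K :=
          mul_le_mul_of_nonneg_left h1 (h.q0 y).le
        nlinarith
    have J1 : ∀ K K' x, K ⊆ K' → K'.card ≤ n + 1 → uu N f x K ≤ uu N f x K' := by
      intro K K' x hKK hc
      by_cases he : K = K'
      · rw [he]
      · obtain ⟨y, hy, hyK⟩ := exists_of_ssubset (hKK.ssubset_of_ne he)
        have h1 : K ⊆ K'.erase y := fun z hz =>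
          mem_erase.2 ⟨fun hc => hyK (hc ▸ hz), hKK hz⟩
        have h2 : (K'.erase y).card ≤ n := by
          rw [card_erase_of_mem hy]
          omega
        have h3 := I1 K (K'.erase y) x h1 h2
        have h4 := J0 (K'.erase y) x y h2 (notMem_erase y K')
        rw [insert_erase hy] at h4
        exact h3.trans h4
    refine ⟨J1, fun K K' x y hKK hc hy => ?_⟩
    have hyK : y ∉ K := fun hh => hy (hKK hh)
    have hp : 0 < 1 - rr N q f y K := by linarith [h.rr_lt y K hyK]
    have hp' : 0 < 1 - rr N q f y K' := by linarith [h.rr_lt y K' hy]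
    have hu := h.uu_pos x K
    have hu' := h.uu_pos x K'
    have hr : rr N q f y K ≤ rr N q f y K' :=
      mul_le_mul_of_nonneg_left (J1 _ _ _ hKK hc) (h.q0 y).le
    by_cases hN : N x y
    · rw [h.uu_insert_of x y K hyK hN, h.uu_insert_of x y K' hy hN, div_mul_eq_mul_div,
        div_mul_eq_mul_div, div_le_div_iff₀ hp hp']
      have : 0 < uu N f x K * uu N f x K' := mul_pos hu hu'
      nlinarith
    · rw [h.uu_insert_not x y K hyK hN, h.uu_insert_not x y K' hy hN, div_mul_eq_mul_div,
        div_mul_eq_mul_div, div_le_div_iff₀ hp hp']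
      -- the set `D`
      set D := K.filter fun z => N x z with hD
      have hKD : rm N x K ∪ D = K := by
        rw [rm, hD, union_comm]
        exact filter_union_filter_not_eq _ K
      have hDK : D ⊆ K := filter_subset _ _
      have hB : (K' \ D) ∪ D = K' := sdiff_union_of_subset (hDK.trans hKK)
      have hAB : rm N x K ⊆ K' \ D := by
        intro z hz
        rw [rm, mem_filter] at hz
        rw [mem_sdiff, hD, mem_filter]
        exact ⟨hKK hz.1, fun hh => hz.2 hh.2⟩
      have hC : rm N x K' ⊆ K' \ D := by
        intro z hz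
        rw [rm, mem_filter] at hz
        rw [mem_sdiff, hD, mem_filter]
        exact ⟨hz.1, fun hh => hz.2 hh.2⟩
      have key := h.one_sub_chain n J1 I2 (y := y) hAB D sdiff_disjoint (by rw [hB]; exact hy)
        (by rw [hB]; exact hc)
      rw [hB, hKD] at key
      have hr2 : rr N q f y (rm N x K') ≤ rr N q f y (K' \ D) :=
        mul_le_mul_of_nonneg_left (J1 _ _ _ hC ((card_le_card sdiff_subset).trans hc)) (h.q0 y).le
      -- key : (1 - r y K') * (1 - r y (rm x K)) ≤ (1 - r y K) * (1 - r y (K' \ D))
      have k2 : (1 - rr N q f y K') * (1 - rr N q f y (rm N x K)) ≤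
          (1 - rr N q f y K) * (1 - rr N q f y (rm N x K')) :=
        key.trans (mul_le_mul_of_nonneg_left (by linarith) hp.le)
      have : 0 < uu N f x K * uu N f x K' := mul_pos hu hu'
      calc uu N f x K * (1 - rr N q f y (rm N x K)) * uu N f x K' * (1 - rr N q f y K')
          = (uu N f x K * uu N f x K') *
            ((1 - rr N q f y K') * (1 - rr N q f y (rm N x K))) := by ring
        _ ≤ (uu N f x K * uu N f x K') *
            ((1 - rr N q f y K) * (1 - rr N q f y (rm N x K'))) :=
          mul_le_mul_of_nonneg_left k2 this.le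
        _ = uu N f x K' * (1 - rr N q f y (rm N x K')) * uu N f x K * (1 - rr N q f y K) := by
          ring

/-- Monotonicity. -/
theorem uu_mono {K K' : Finset X} (hKK : K ⊆ K') (x : X) : uu N f x K ≤ uu N f x K' :=
  (h.main_ind K'.card).1 K K' x hKK le_rfl

theorem rr_mono {K K' : Finset X} (hKK : K ⊆ K') (x : X) : rr N q f x K ≤ rr N q f x K' :=
  mul_le_mul_of_nonneg_left (h.uu_mono hKK x) (h.q0 x).le

/-- Supermodularity of the logarithm. -/
theorem uu_super {K K' : Finset X} (hKK : K ⊆ K') (x y : X) (hy : y ∉ K') :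
    uu N f x (insert y K) * uu N f x K' ≤ uu N f x (insert y K') * uu N f x K :=
  (h.main_ind K'.card).2 K K' x y hKK le_rfl hy

theorem rr_insert {K K' : Finset X} (hKK : K ⊆ K') (x y : X) (hy : y ∉ K') :
    rr N q f x (insert y K) - rr N q f x K ≤ rr N q f x (insert y K') - rr N q f x K' := by
  have h1 := h.uu_super hKK x y hy
  have h2 := h.uu_mono hKK x
  have h3 := h.uu_mono (subset_insert y K) x
  have u0 := h.uu_pos x K
  have h4 : uu N f x (insert y K) - uu N f x K ≤ uu N f x (insert y K') - uu N f x K' := by
    have h5 : (uu N f x (insert y K) - uu N f x K) * uu N f x K ≤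
        (uu N f x (insert y K') - uu N f x K') * uu N f x K := by nlinarith
    exact le_of_mul_le_mul_right h5 u0
  unfold rr
  rw [← mul_sub, ← mul_sub]
  exact mul_le_mul_of_nonneg_left h4 (h.q0 x).le

/-- Increasing differences. -/
theorem rr_union {A B : Finset X} (hAB : A ⊆ B) (x : X) (D : Finset X) :
    Disjoint B D → rr N q f x (A ∪ D) - rr N q f x A ≤ rr N q f x (B ∪ D) - rr N q f x B := by
  induction D using Finset.induction_on with
  | empty =>
    intro _
    rw [union_empty, union_empty, sub_self, sub_self]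
  | insert z D hz ih =>
    intro hd
    have h1 := ih (hd.mono_right (subset_insert z D))
    have h2 := h.rr_insert (union_subset_union_left (t := D) hAB) x z (by
      rw [mem_union, not_or]
      exact ⟨disjoint_right.1 hd (mem_insert_self z D), hz⟩)
    rw [union_insert, union_insert]
    linarith

/-- The conditional probability of `x` given that `K` is void and `w` is present. -/
theorem diff_eq (x w : X) (K : Finset X) (hw : w ∉ K) (hx : x ∉ K) (_hxw : x ≠ w) :
    ∃ e : ℝ, 0 ≤ e ∧ rr N q f x (insert w K) - rr N q f x K =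
        rr N q f w K / (1 - rr N q f w K) * e ∧
      uu N f w K * (1 + e) ≤ uu N f w (insert x K) := by
  have hpw : 0 < 1 - rr N q f w K := by linarith [h.rr_lt w K hw]
  have hpx : 0 < 1 - rr N q f x K := by linarith [h.rr_lt x K hx]
  have uw := h.uu_pos w K
  have rx := h.rr_pos x K
  by_cases hN : N x w
  · refine ⟨rr N q f x K, (h.rr_pos x K).le, ?_, ?_⟩
    · have h1 := h.uu_insert_of x w K hw hN
      rw [rr, h1, ← mul_div_assoc]
      change rr N q f x K / (1 - rr N q f w K) - rr N q f x K = _
      field_simp
      ring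
    · rw [h.uu_insert_of w x K hx (h.symm _ _ hN), le_div_iff₀ hpx]
      nlinarith [mul_pos uw (mul_pos rx rx)]
  · have hN' : ¬ N w x := fun hc => hN (h.symm _ _ hc)
    have hm : rr N q f x (rm N w K) ≤ rr N q f x K := h.rr_mono (rm_subset w K) x
    refine ⟨rr N q f x K - rr N q f x (rm N w K), sub_nonneg.2 hm, ?_, ?_⟩
    · have h1 := h.uu_insert_not x w K hw hN
      have h2 : rr N q f x K * rr N q f w (rm N x K) =
          rr N q f w K * rr N q f x (rm N w K) := by
        unfold rr uu
        rw [rm_comm w x K]
        have a1 := (h.pos K).ne'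
        have a2 := (h.pos (rm N x K)).ne'
        have a3 := (h.pos (rm N w K)).ne'
        field_simp
      have h3 : rr N q f x (insert w K) =
          (rr N q f x K - rr N q f w K * rr N q f x (rm N w K)) / (1 - rr N q f w K) := by
        rw [← h2]
        change q x * uu N f x (insert w K) = _
        rw [h1]
        change _ = (q x * uu N f x K - q x * uu N f x K * rr N q f w (rm N x K)) / _
        ring
      rw [h3]
      field_simp
      ring
    · rw [h.uu_insert_not w x K hx hN', le_div_iff₀ hpx]
      have r0 := h.rr_pos x (rm N w K)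
      have h5 : (1 + (rr N q f x K - rr N q f x (rm N w K))) * (1 - rr N q f x K) ≤
          1 - rr N q f x (rm N w K) := by
        nlinarith
      calc uu N f w K * (1 + (rr N q f x K - rr N q f x (rm N w K))) * (1 - rr N q f x K)
          = uu N f w K * ((1 + (rr N q f x K - rr N q f x (rm N w K))) * (1 - rr N q f x K)) := by
            ring
        _ ≤ uu N f w K * (1 - rr N q f x (rm N w K)) := mul_le_mul_of_nonneg_left h5 uw.le

/-- **Column bound.** -/
theorem sum_insert_le (w : X) (K T : Finset X) (hw : w ∉ K) (hwT : w ∉ T) (hKT : Disjoint K T) :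
    ∑ x ∈ T, (rr N q f x (insert w K) - rr N q f x K) ≤ 1 := by
  classical
  have hx : ∀ x ∈ T, x ∉ K := fun x hx => disjoint_right.1 hKT hx
  have hxw : ∀ x ∈ T, x ≠ w := fun x hx hc => hwT (hc ▸ hx)
  choose! e he using fun x (hxT : x ∈ T) => h.diff_eq x w K hw (hx x hxT) (hxw x hxT)
  have hp : 0 < 1 - rr N q f w K := by linarith [h.rr_lt w K hw]
  have r0 := h.rr_pos w K
  have hprod : ∀ S : Finset X, S ⊆ T →
      uu N f w K * (1 + ∑ x ∈ S, e x) ≤ uu N f w (K ∪ S) := by
    intro S
    induction S using Finset.induction_on with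
    | empty =>
      intro _
      rw [sum_empty, add_zero, mul_one, union_empty]
    | insert z S hz ih =>
      intro hS
      have hzT : z ∈ T := hS (mem_insert_self z S)
      have hS' : S ⊆ T := (subset_insert z S).trans hS
      have ih' := ih hS'
      have hzKS : z ∉ K ∪ S := by
        rw [mem_union, not_or]
        exact ⟨hx z hzT, hz⟩
      have h1 := h.uu_super (subset_union_left (s₁ := K) (s₂ := S)) w z hzKS
      have h2 := (he z hzT).2.2
      have e0 : 0 ≤ e z := (he z hzT).1
      have es : 0 ≤ ∑ x ∈ S, e x := sum_nonneg fun x hxS => (he x (hS' hxS)).1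
      have u1 := h.uu_pos w K
      have u2 := h.uu_pos w (K ∪ S)
      rw [union_insert, sum_insert hz]
      -- h1 : uu w (insert z K) * uu w (K ∪ S) ≤ uu w (insert z (K ∪ S)) * uu w K
      have h3 : uu N f w K * (1 + e z) * uu N f w (K ∪ S) ≤
          uu N f w (insert z (K ∪ S)) * uu N f w K :=
        (mul_le_mul_of_nonneg_right h2 u2.le).trans h1
      have h4 : (1 + e z) * uu N f w (K ∪ S) ≤ uu N f w (insert z (K ∪ S)) := by
        have : uu N f w K * ((1 + e z) * uu N f w (K ∪ S)) ≤
            uu N f w K * uu N f w (insert z (K ∪ S)) := by linarith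
        exact le_of_mul_le_mul_left this u1
      refine le_trans ?_ h4
      calc uu N f w K * (1 + (e z + ∑ x ∈ S, e x))
          ≤ (1 + e z) * (uu N f w K * (1 + ∑ x ∈ S, e x)) := by
            have := mul_nonneg u1.le (mul_nonneg e0 es)
            nlinarith
        _ ≤ (1 + e z) * uu N f w (K ∪ S) := mul_le_mul_of_nonneg_left ih' (by linarith)
  have h1 := hprod T subset_rfl
  have h2 : rr N q f w K * (1 + ∑ x ∈ T, e x) < 1 := by
    have h3 : w ∉ K ∪ T := by
      rw [mem_union, not_or]
      exact ⟨hw, hwT⟩
    have h4 := h.rr_lt w (K ∪ T) h3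
    have h5 : rr N q f w K * (1 + ∑ x ∈ T, e x) ≤ rr N q f w (K ∪ T) := by
      unfold rr
      rw [mul_assoc]
      exact mul_le_mul_of_nonneg_left h1 (h.q0 w).le
    linarith
  have h3 : ∑ x ∈ T, (rr N q f x (insert w K) - rr N q f x K) =
      rr N q f w K / (1 - rr N q f w K) * ∑ x ∈ T, e x := by
    rw [mul_sum]
    exact sum_congr rfl fun x hxT => (he x hxT).2.1
  rw [h3, div_mul_eq_mul_div, div_le_one hp]
  linarith

/-- Column bound for a set of void particles. -/
theorem sum_union_le (A T D : Finset X) : Disjoint A D → Disjoint (A ∪ D) T →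
    ∑ x ∈ T, (rr N q f x (A ∪ D) - rr N q f x A) ≤ D.card := by
  induction D using Finset.induction_on with
  | empty =>
    intro _ _
    simp
  | insert z D hz ih =>
    intro hd hT
    rw [union_insert] at hT ⊢
    have hzA : z ∉ A ∪ D := by
      rw [mem_union, not_or]
      exact ⟨disjoint_right.1 hd (mem_insert_self z D), hz⟩
    have h1 := ih (hd.mono_right (subset_insert z D)) (hT.mono_left (subset_insert _ _))
    have h2 := h.sum_insert_le z (A ∪ D) T hzA (disjoint_left.1 hT (mem_insert_self _ _))
      (hT.mono_left (subset_insert _ _))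
    have h3 : ∑ x ∈ T, (rr N q f x (insert z (A ∪ D)) - rr N q f x A) =
        ∑ x ∈ T, (rr N q f x (insert z (A ∪ D)) - rr N q f x (A ∪ D)) +
          ∑ x ∈ T, (rr N q f x (A ∪ D) - rr N q f x A) := by
      rw [← sum_add_distrib]
      exact sum_congr rfl fun x _ => by ring
    rw [h3, card_insert_of_notMem hz]
    push_cast
    linarith

end IsVoid

end Pool.Agent.SH95
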