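import Pool.Agent.Lib.SH95.Iid
import Pool.Agent.Lib.FD82.E3_Main

/-!
# Finitely dependent processes of particles with pairwise exclusion are factors of i.i.d.
-/

set_option autoImplicit false
set_option linter.unusedSectionVars false

open MeasureTheory Filter Topology

namespace Pool.Agent.SH95

open Finset Pool.Agent.FD82

section

variable {V : Type} {G : SimpleGraph V} {k : ℕ} {μ : Measure (Cfg V k)} [IsProbabilityMeasure μ]

theorem factor_of_ker (hgeo : Geo G) (hinv : Inv G μ) {C : ℝ} (hC : 0 ≤ C) {p : Kern V k}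
    (hker : IsKer G C p) (hcond : Cond μ p) :
    ∃ Φ : (V → unitInterval) → (V → Fin (k + 1)), Measurable Φ ∧
      (∀ g : G ≃g G, ∀ x : V → unitInterval, Φ (x ∘ ⇑g) = Φ x ∘ ⇑g) ∧
      (Measure.infinitePi (fun _ : V => (volume : Measure unitInterval))).map Φ = μ := by
  obtain ⟨L, hL, hLl⟩ := exists_labels V
  have hT : Measurable (fun x : V → unitInterval =>
      ((fun v => (L (x v)).1), (fun v => (L (x v)).2))) := by
    refine Measurable.prodMk ?_ ?_
    · exact measurable_pi_lambda _ fun v => measurable_fst.comp (hL.comp (measurable_pi_apply v))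
    · exact measurable_pi_lambda _ fun v => measurable_snd.comp (hL.comp (measurable_pi_apply v))
  have hΨm : Measurable (fun x : (V → ℝ) × (V → ℝ) => Psi p x.1 x.2) :=
    meas_Psi hgeo hker measurable_fst measurable_snd
  refine ⟨fun x => Psi p (fun v => (L (x v)).1) (fun v => (L (x v)).2), hΨm.comp hT, ?_, ?_⟩
  · intro g x
    exact Psi_equiv hker g (fun v => (L (x v)).1) (fun v => (L (x v)).2)
  · have h1 : (Measure.infinitePi (fun _ : V => (volume : Measure unitInterval))).map
        ((fun x : (V → ℝ) × (V → ℝ) => Psi p x.1 x.2) ∘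
          fun x : V → unitInterval => ((fun v => (L (x v)).1), (fun v => (L (x v)).2))) = μ := by
      rw [← Measure.map_map hΨm hT, hLl, Psi_law hgeo hker hC hinv hcond]
    exact h1

/-- The main theorem. -/
theorem main_hyp {d m : ℕ} (hd : 3 ≤ d) (hG : G.IsTree)
    (hdeg : ∀ v : V, (G.neighborSet v).ncard = d) (hinv : Inv G μ) (hD : MDep G m μ)
    (hyp : Hyp μ) :
    ∃ Φ : (V → unitInterval) → (V → Fin (k + 1)), Measurable Φ ∧
      (∀ g : G ≃g G, ∀ x : V → unitInterval, Φ (x ∘ ⇑g) = Φ x ∘ ⇑g) ∧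
      (Measure.infinitePi (fun _ : V => (volume : Measure unitInterval))).map Φ = μ := by
  classical
  have hgeo := tree_geo hd G hG hdeg
  obtain ⟨o⟩ := hG.1.nonempty
  have htr : ∀ (v : V) (a : Fin (k + 1)), μ.real {ω | ω v = a} = μ.real {ω | ω o = a} := by
    intro v a
    obtain ⟨g, hg, -⟩ := hgeo.swap o v
    have := site_inv hinv g o a
    rw [hg] at this
    exact this
  set Sy : Type := {a : Fin (k + 1) // a ≠ 0 ∧ 0 < μ.real {ω | ω o = a}} with hSy
  set sy : Sy → Fin (k + 1) := Subtype.val with hsyd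
  have hsy : Function.Injective sy := Subtype.val_injective
  have h0 : ∀ b, sy b ≠ 0 := fun b => b.2.1
  have hq : ∀ x, 0 < qq μ sy x := by
    intro x
    change 0 < μ.real {ω | ω x.1 = sy x.2}
    rw [htr]
    exact x.2.2.2
  have hz : ∀ (w : V) (a : Fin (k + 1)), a ≠ 0 → (∀ c, sy c ≠ a) →
      μ.real {ω | ω w = a} = 0 := by
    intro w a ha hc
    rw [htr]
    by_contra hne
    exact hc ⟨a, ha, lt_of_le_of_ne measureReal_nonneg (Ne.symm hne)⟩ rfl
  have hP : Prd μ sy := prd_of_hyp hsy h0 hyp
  by_cases hcross : ∃ x y : V × Sy, x.1 ≠ y.1 ∧ NN μ sy x y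
  · have hM := model hd hG hdeg hinv hD hq hsy h0 hP hcross
    obtain ⟨C, hC, hker⟩ := isKer hgeo hM
    exact factor_of_ker hgeo hinv hC hker (cond_pk hgeo hM hP hz)
  · push Not at hcross
    have hprod : ∀ (I : Finset V) (c : V → Fin (k + 1)), (∀ v ∈ I, c v ≠ 0) →
        μ.real {ω | ∀ v ∈ I, ω v = c v} = ∏ v ∈ I, μ.real {ω | ω v = c v} := by
      intro I c hc
      by_cases hall : ∀ v ∈ I, ∃ b, sy b = c v
      · rcases hyp I c hc with h | ⟨u, hu, v, hv, huv, h⟩
        · exact h
        · exfalso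
          obtain ⟨b, hb⟩ := hall u hu
          obtain ⟨b', hb'⟩ := hall v hv
          refine hcross (u, b) (v, b') huv ⟨fun he => huv (Prod.mk.inj he).1, ?_⟩
          change μ.real {ω | ω u = sy b ∧ ω v = sy b'} = 0
          rw [hb, hb']
          exact h
      · push Not at hall
        obtain ⟨v, hv, hvb⟩ := hall
        have h1 := hz v (c v) (hc v hv) hvb
        rw [prod_eq_zero hv h1]
        refine le_antisymm ?_ measureReal_nonneg
        rw [← h1]
        exact measureReal_mono fun ω hω => hω v hv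
    exact factor_of_ker hgeo hinv le_rfl (isKer_pr hinv) (cond_pr hprod)

/-- Independent singletons. -/
theorem hyp_of_excl {m : ℕ}
    (h : ∀ (p : ℕ) (K : Fin p → Set V),
      (∀ i j : Fin p, i ≠ j → ∀ u ∈ K i, ∀ w ∈ K j, m < G.dist u w) →
      ProbabilityTheory.iIndep (fun i : Fin p => MeasurableSpace.comap
        (fun x : V → Fin (k + 1) => fun v : K i => x v) MeasurableSpace.pi) μ)
    (hex : ∀ u v : V, u ≠ v → G.dist u v ≤ m → μ {x | x u ≠ 0 ∧ x v ≠ 0} = 0) : Hyp μ := by
  classical
  intro I c hc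
  by_cases hfar : ∀ u ∈ I, ∀ v ∈ I, u ≠ v → m < G.dist u v
  · left
    let e := I.equivFin
    let K : Fin I.card → Set V := fun i => {((e.symm i : I) : V)}
    have hK : ∀ i j : Fin I.card, i ≠ j → ∀ u ∈ K i, ∀ w ∈ K j, m < G.dist u w := by
      intro i j hij u hu w hw
      have hu' : u = ((e.symm i : I) : V) := hu
      have hw' : w = ((e.symm j : I) : V) := hw
      rw [hu', hw']
      refine hfar _ (e.symm i).2 _ (e.symm j).2 fun he => hij ?_
      exact e.symm.injective (Subtype.ext he)
    have h2 := (h I.card K hK).meas_iInter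
      (s := fun i => {ω : V → Fin (k + 1) | ω ((e.symm i : I) : V) = c ((e.symm i : I) : V)})
      (by
        intro i
        refine ⟨{η | η ⟨((e.symm i : I) : V), rfl⟩ = c ((e.symm i : I) : V)}, ?_, ?_⟩
        · exact measurableSet_eq_fun (measurable_pi_apply _) measurable_const
        · ext ω
          simp only [Set.mem_preimage, Set.mem_ofPred_eq])
    have e1 : (⋂ i, {ω : V → Fin (k + 1) | ω ((e.symm i : I) : V) = c ((e.symm i : I) : V)}) =
        {ω : V → Fin (k + 1) | ∀ v ∈ I, ω v = c v} := by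
      ext ω
      simp only [Set.mem_iInter, Set.mem_ofPred_eq]
      constructor
      · intro h3 v hv
        have := h3 (e ⟨v, hv⟩)
        rwa [e.symm_apply_apply] at this
      · intro h3 i
        exact h3 _ (e.symm i).2
    rw [e1] at h2
    rw [measureReal_def, h2, ENNReal.toReal_prod]
    rw [← Finset.prod_coe_sort I (fun v => μ.real {ω : V → Fin (k + 1) | ω v = c v})]
    exact Fintype.prod_equiv e.symm _ _ fun i => rfl
  · right
    push Not at hfar
    obtain ⟨u, hu, v, hv, huv, hle⟩ := hfar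
    refine ⟨u, hu, v, hv, huv, ?_⟩
    have h1 := hex u v huv hle
    have h2 : μ {ω : V → Fin (k + 1) | ω u = c u ∧ ω v = c v} = 0 := by
      refine measure_mono_null (fun ω hω => ?_) h1
      exact ⟨by rw [hω.1]; exact hc u hu, by rw [hω.2]; exact hc v hv⟩
    rw [measureReal_def, h2]
    rfl

end

end Pool.Agent.SH95
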