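import Pool.Agent.Lib.FD82.E1_Tree

/-!
# The regular tree: distance transitivity, far vertices
-/

set_option autoImplicit false

open Set

namespace Pool.Agent.SH95

open Pool.Agent.FD82 Pool.Agent.FinDep

variable {V : Type} {G : SimpleGraph V}

/-- The automorphism group is transitive on the pairs of vertices at a given distance. -/
theorem exists_move (hT : G.IsTree) {d : ℕ} (hd : 1 ≤ d)
    (hreg : ∀ v, (G.neighborSet v).ncard = d) (v w v' w' : V) (hvw : G.dist v w = G.dist v' w') :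
    ∃ g : G ≃g G, g v = v' ∧ g w = w' := by
  have hc := hT.1
  obtain ⟨p, hp0, hpn, hp⟩ := E1Tree.exists_geodesic hc v w
  obtain ⟨p', hp0', hpn', hp'⟩ := E1Tree.exists_geodesic hc v' w'
  rw [← hvw] at hpn' hp'
  set n := G.dist v w with hn
  have hq : ∀ i j, i ≤ n → j ≤ n → G.dist (p i) (p j) = (i - j) + (j - i) := by
    intro i j hi hj
    rcases le_total i j with h | h
    · rw [hp i j h hj]; omega
    · rw [SimpleGraph.dist_comm, hp j i h hi]; omega
  have hq' : ∀ i j, i ≤ n → j ≤ n → G.dist (p' i) (p' j) = (i - j) + (j - i) := by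
    intro i j hi hj
    rcases le_total i j with h | h
    · rw [hp' i j h hj]; omega
    · rw [SimpleGraph.dist_comm, hp' j i h hi]; omega
  have heq : ∀ i j, i ≤ n → j ≤ n → (p i = p j ↔ i = j) := by
    intro i j hi hj
    rw [← hc.dist_eq_zero_iff, hq i j hi hj]
    omega
  have heq' : ∀ i j, i ≤ n → j ≤ n → (p' i = p' j ↔ i = j) := by
    intro i j hi hj
    rw [← hc.dist_eq_zero_iff, hq' i j hi hj]
    omega
  have hadj : ∀ i j, i ≤ n → j ≤ n → (G.Adj (p i) (p j) ↔ (i - j) + (j - i) = 1) := by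
    intro i j hi hj
    rw [← SimpleGraph.dist_eq_one_iff_adj, hq i j hi hj]
  have hadj' : ∀ i j, i ≤ n → j ≤ n → (G.Adj (p' i) (p' j) ↔ (i - j) + (j - i) = 1) := by
    intro i j hi hj
    rw [← SimpleGraph.dist_eq_one_iff_adj, hq' i j hi hj]
  set R₀ : Set (V × V) := {q | ∃ i, i ≤ n ∧ q = (p i, p' i)} with hR₀
  have h₀ : PIso G v v' R₀ := by
    refine ⟨?_, ?_, ?_, ?_⟩
    · rintro _ ⟨i, hi, rfl⟩ _ ⟨j, hj, rfl⟩
      simp only
      rw [heq i j hi hj, heq' i j hi hj]
    · rintro _ ⟨i, hi, rfl⟩ _ ⟨j, hj, rfl⟩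
      simp only
      rw [hadj i j hi hj, hadj' i j hi hj]
    · rintro _ ⟨i, hi, rfl⟩
      simp only
      have e1 := hq 0 i (by omega) hi
      have e2 := hq' 0 i (by omega) hi
      rw [hp0] at e1
      rw [hp0'] at e2
      rw [e1, e2]
    · rintro _ ⟨i, hi, rfl⟩
      rcases Nat.eq_zero_or_pos i with h | h
      · left
        rw [h]
        exact hp0
      · right
        refine ⟨(p (i - 1), p' (i - 1)), ⟨i - 1, by omega, rfl⟩, ?_, ?_⟩
        · simp only
          rw [hadj (i - 1) i (by omega) hi]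
          omega
        · simp only
          have e1 := hq 0 i (by omega) hi
          have e2 := hq 0 (i - 1) (by omega) (by omega)
          rw [hp0] at e1 e2
          rw [e1, e2]
          omega
  have m0 : (v, v') ∈ R₀ := ⟨0, Nat.zero_le _, by rw [hp0, hp0']⟩
  have m1 : (w, w') ∈ R₀ := ⟨n, le_rfl, by rw [hpn, hpn']⟩
  obtain ⟨g, hg⟩ := E1Tree.auto_of_piso hT hd hreg h₀ m0
  exact ⟨g, hg _ m0, hg _ m1⟩

/-- A regular tree of degree at least `2` is infinite. -/
theorem tree_infinite (hT : G.IsTree) {d : ℕ} (hd : 3 ≤ d)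
    (hreg : ∀ v, (G.neighborSet v).ncard = d) : Infinite V := by
  classical
  by_contra hfin
  rw [not_infinite_iff_finite] at hfin
  have := Fintype.ofFinite V
  have h1 := hT.card_edgeFinset
  have h2 := G.sum_degrees_eq_twice_card_edges
  have h3 : ∀ v, G.degree v = d := by
    intro v
    rw [← hreg v, Set.ncard_eq_toFinset_card']
    rfl
  rw [Finset.sum_congr rfl fun v _ => h3 v, Finset.sum_const, Finset.card_univ,
    smul_eq_mul] at h2
  have h4 : 3 * Fintype.card V ≤ Fintype.card V * d := by nlinarith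
  omega

/-- A finite set of vertices closed under moving by a distance `δ ≥ 1` is empty. -/
theorem closed_empty (hT : G.IsTree) {d : ℕ} (hd : 3 ≤ d)
    (hreg : ∀ v, (G.neighborSet v).ncard = d) {δ : ℕ} (hδ : 1 ≤ δ) (W : Set V) (hW : W.Finite)
    (hcl : ∀ w ∈ W, ∀ w', G.dist w w' = δ → w' ∈ W) : W = ∅ := by
  by_contra hne
  obtain ⟨o, ho⟩ := Set.nonempty_iff_ne_empty.2 hne
  have hinf := tree_infinite hT hd hreg
  -- far vertices
  obtain ⟨n, hn⟩ : ∃ n, ∀ w ∈ W, G.dist o w < n * δ := by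
    obtain ⟨n, hn⟩ := (hW.image fun w => G.dist o w).bddAbove
    refine ⟨n + 1, fun w hw => ?_⟩
    have h1 : G.dist o w ≤ n := hn ⟨w, hw, rfl⟩
    nlinarith
  obtain ⟨z, hz⟩ : ∃ z, n * δ ≤ G.dist o z := by
    by_contra hcon
    push Not at hcon
    have h1 : (Set.univ : Set V) ⊆ {w | G.dist o w ≤ n * δ} := fun w _ => (hcon w).le
    exact Set.infinite_univ ((ball_finite (by omega) hT.1 hreg o (n * δ)).subset h1)
  obtain ⟨p, hp0, -, hp⟩ := E1Tree.exists_geodesic hT.1 o z
  have key : ∀ i, i ≤ n → p (i * δ) ∈ W := by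
    intro i
    induction i with
    | zero =>
      intro _
      rw [zero_mul, hp0]
      exact ho
    | succ i ih =>
      intro hi
      have h1 : (i + 1) * δ ≤ n * δ := Nat.mul_le_mul_right δ hi
      refine hcl _ (ih (by omega)) _ ?_
      rw [hp (i * δ) ((i + 1) * δ) (Nat.mul_le_mul_right δ (Nat.le_succ i)) (h1.trans hz),
        Nat.succ_mul]
      omega
  have h1 := hn _ (key n le_rfl)
  have h2 := hp 0 (n * δ) (Nat.zero_le _) hz
  rw [hp0] at h2
  omega

end Pool.Agent.SH95
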