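import Pool.Agent.Lib.SH95.Pos

/-!
# The degenerate case: product measures
-/

set_option autoImplicit false
set_option linter.unusedSectionVars false

open MeasureTheory Filter Topology

namespace Pool.Agent.SH95

open Finset Pool.Agent.FD82

section

variable {V : Type} {G : SimpleGraph V} {k : ℕ} {μ : Measure (Cfg V k)} [IsProbabilityMeasure μ]

theorem sum_site (v : V) : ∑ a, μ.real {ω : Cfg V k | ω v = a} = 1 := by
  have h1 : (Set.univ : Set (Cfg V k)) = ⋃ a ∈ (univ : Finset (Fin (k + 1))),
      {ω : Cfg V k | ω v = a} := by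
    ext ω
    simp
  have h2 : μ.real (Set.univ : Set (Cfg V k)) = 1 := probReal_univ
  rw [h1, measureReal_biUnion_finset] at h2
  · exact h2
  · intro a _ a' _ haa
    rw [Function.onFun, Set.disjoint_left]
    intro ω hω hω'
    exact haa (hω.symm.trans hω')
  · intro a _
    exact measurableSet_site v a

theorem prod_all (h : ∀ (I : Finset V) (c : V → Fin (k + 1)), (∀ v ∈ I, c v ≠ 0) →
    μ.real {ω | ∀ v ∈ I, ω v = c v} = ∏ v ∈ I, μ.real {ω | ω v = c v})
    (n : ℕ) : ∀ (A : Finset V) (y : V → Fin (k + 1)), (A.filter fun w => y w = 0).card ≤ n →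
    μ.real {ω | ∀ v ∈ A, ω v = y v} = ∏ v ∈ A, μ.real {ω | ω v = y v} := by
  classical
  induction n with
  | zero =>
    intro A y hA
    refine h A y fun v hv h0 => ?_
    have : v ∈ A.filter fun w => y w = 0 := mem_filter.2 ⟨hv, h0⟩
    rw [Nat.le_zero, card_eq_zero] at hA
    rw [hA] at this
    exact absurd this (notMem_empty v)
  | succ n ih =>
    intro A y hA
    by_cases hex : ∃ w ∈ A, y w = 0
    swap
    · push Not at hex
      exact h A y hex
    obtain ⟨w, hw, hw0⟩ := hex
    set A' := A.erase w with hA'
    have hwA' : w ∉ A' := notMem_erase w A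
    have hins : insert w A' = A := insert_erase hw
    have hcard : (A'.filter fun u => y u = 0).card ≤ n := by
      have h1 : w ∈ A.filter fun u => y u = 0 := mem_filter.2 ⟨hw, hw0⟩
      have h2 : A'.filter (fun u => y u = 0) = (A.filter fun u => y u = 0).erase w := by
        rw [hA', filter_erase]
      rw [h2, card_erase_of_mem h1]
      omega
    have e1 := ih A' y hcard
    have e2 : ∀ a : Fin (k + 1), a ≠ 0 →
        μ.real {ω | (∀ v ∈ A', ω v = y v) ∧ ω w = a} =
          (∏ v ∈ A', μ.real {ω | ω v = y v}) * μ.real {ω | ω w = a} := by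
      intro a ha
      have h1 := ih A (Function.update y w a) (by
        refine (card_le_card ?_).trans hcard
        intro u hu
        rw [mem_filter] at hu ⊢
        by_cases huw : u = w
        · rw [huw, Function.update_self] at hu
          exact absurd hu.2 ha
        · rw [Function.update_of_ne huw] at hu
          exact ⟨mem_erase.2 ⟨huw, hu.1⟩, hu.2⟩)
      have h2 : {ω : V → Fin (k + 1) | ∀ v ∈ A, ω v = Function.update y w a v} =
          {ω | (∀ v ∈ A', ω v = y v) ∧ ω w = a} := by
        ext ω
        simp only [Set.mem_ofPred_eq]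
        rw [← hins]
        simp only [mem_insert, forall_eq_or_imp, Function.update_self]
        rw [and_comm]
        refine and_congr_left fun _ => forall₂_congr fun v hv => ?_
        rw [Function.update_of_ne (fun he : v = w => hwA' (he ▸ hv))]
      rw [h2, ← hins, prod_insert hwA', Function.update_self] at h1
      rw [h1, mul_comm]
      congr 1
      refine prod_congr rfl fun v hv => ?_
      rw [Function.update_of_ne (fun he : v = w => hwA' (he ▸ hv))]
    have e3 : μ.real {ω : V → Fin (k + 1) | ∀ v ∈ A', ω v = y v} =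
        ∑ a, μ.real {ω : V → Fin (k + 1) | (∀ v ∈ A', ω v = y v) ∧ ω w = a} := by
      rw [← measureReal_biUnion_finset]
      · congr 1
        ext ω
        simp
      · intro a _ a' _ haa
        rw [Function.onFun, Set.disjoint_left]
        intro ω hω hω'
        exact haa (hω.2.symm.trans hω'.2)
      · intro a _
        exact (measurableSet_cyl A' y).inter (measurableSet_site w a)
    rw [Fin.sum_univ_succ] at e3
    have e4 := sum_site (μ := μ) w
    rw [Fin.sum_univ_succ] at e4
    rw [sum_congr rfl fun (a : Fin k) _ => e2 a.succ (Fin.succ_ne_zero a), ← mul_sum, e1] at e3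
    have e5 : {ω : V → Fin (k + 1) | ∀ v ∈ A, ω v = y v} =
        {ω | (∀ v ∈ A', ω v = y v) ∧ ω w = 0} := by
      ext ω
      simp only [Set.mem_ofPred_eq]
      rw [← hins]
      simp only [mem_insert, forall_eq_or_imp, hw0]
      rw [and_comm]
    rw [e5, ← hins, prod_insert hwA', hw0]
    have e6 : μ.real {ω : V → Fin (k + 1) | ω w = 0} =
        1 - ∑ a : Fin k, μ.real {ω : V → Fin (k + 1) | ω w = a.succ} := by linarith
    rw [e6]
    linarith

/-- The kernel of a product measure. -/
noncomputable def pr (μ : Measure (Cfg V k)) : Kern V k := fun v _ _ a => μ.real {ω | ω v = a}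

theorem isKer_pr (hinv : Inv G μ) : IsKer G 0 (pr μ) where
  nonneg := fun _ _ _ _ => measureReal_nonneg
  sum := fun v _ _ => sum_site v
  equiv := fun g v _ _ a => site_inv hinv g v a
  approx := by
    refine ⟨fun _ => pr μ, fun _ => 0, fun _ => 0, ?_, ?_, ?_, ?_, ?_⟩
    · exact tendsto_const_nhds
    · intros
      rfl
    · intros
      simp
    · intro n A w y y' hyy T hT
      simp [pr]
    · exact fun _ g v _ _ a => site_inv hinv g v a

theorem cond_pr (h : ∀ (I : Finset V) (c : V → Fin (k + 1)), (∀ v ∈ I, c v ≠ 0) →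
    μ.real {ω | ∀ v ∈ I, ω v = c v} = ∏ v ∈ I, μ.real {ω | ω v = c v}) :
    Cond μ (pr μ) := by
  classical
  intro A v hv y a
  have h1 := prod_all h _ (insert v A) (Function.update y v a) le_rfl
  have h2 := prod_all h _ A y le_rfl
  have h3 : {ω : V → Fin (k + 1) | ∀ w ∈ insert v A, ω w = Function.update y v a w} =
      {ω | (∀ w ∈ A, ω w = y w) ∧ ω v = a} := by
    ext ω
    simp only [Set.mem_ofPred_eq, mem_insert, forall_eq_or_imp, Function.update_self]
    rw [and_comm]
    refine and_congr_left fun _ => forall₂_congr fun w hw => ?_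
    rw [Function.update_of_ne (fun he : w = v => hv (he ▸ hw))]
  rw [h3, prod_insert hv, Function.update_self] at h1
  rw [h1, h2]
  unfold pr
  congr 1
  refine prod_congr rfl fun w hw => ?_
  rw [Function.update_of_ne (fun he : w = v => hv (he ▸ hw))]

end

end Pool.Agent.SH95
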