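import Pool.Agent.Lib.SH95.Core
import Pool.Agent.Lib.FD82.D2_Sol

/-!
# The kernel of a hard-core process

Particles are pairs of a vertex and a symbol.  Given the configuration on `A`, the particles present
in `A` exclude their conflict partners; `JS` is the set of the void particles which are not excluded.
The conditional probability of the particle `x` is `0` if `x` is excluded, else `rr x JS` (a limit of
values at finite sets).
-/

set_option autoImplicit false
set_option linter.unusedSectionVars false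

open Filter Topology

namespace Pool.Agent.SH95

open Finset Pool.Agent.FD82

/-- A hard-core model with symbols in `Sy`. -/
structure Model {V : Type} (G : SimpleGraph V) (k m : ℕ) (Sy : Type) [Fintype Sy]
    (sy : Sy → Fin (k + 1)) (N : V × Sy → V × Sy → Prop) [DecidableRel N] (q : V × Sy → ℝ)
    [DecidableEq (V × Sy)] (f : Finset (V × Sy) → ℝ) : Prop where
  void : IsVoid N q f
  inj : Function.Injective sy
  ne0 : ∀ b, sy b ≠ 0
  same : ∀ v a b, a ≠ b → N (v, a) (v, b)
  range : ∀ x y, N x y → G.dist x.1 y.1 ≤ m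
  invN : ∀ (g : G ≃g G) (x y : V × Sy), N (g x.1, x.2) (g y.1, y.2) ↔ N x y
  invf : ∀ (g : G ≃g G) (K : Finset (V × Sy)), f (K.image fun x => (g x.1, x.2)) = f K
  invq : ∀ (g : G ≃g G) (x : V × Sy), q (g x.1, x.2) = q x

section Sym

variable {k : ℕ} {Sy : Type} [Fintype Sy] {sy : Sy → Fin (k + 1)}

/-- The law on the symbols with probability `P b` for the particle `b`. -/
noncomputable def kk (sy : Sy → Fin (k + 1)) (P : Sy → ℝ) (a : Fin (k + 1)) : ℝ :=
  (if a = 0 then 1 - ∑ b, P b else 0) + ∑ b, if sy b = a then P b else 0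

theorem kk_sum (P : Sy → ℝ) : ∑ a, kk sy P a = 1 := by
  unfold kk
  rw [sum_add_distrib, sum_comm]
  simp

theorem kk_nonneg {P : Sy → ℝ} (h0 : ∀ b, 0 ≤ P b) (h1 : ∑ b, P b ≤ 1) (a : Fin (k + 1)) :
    0 ≤ kk sy P a := by
  unfold kk
  refine add_nonneg ?_ (sum_nonneg fun b _ => ?_)
  · split_ifs
    · linarith
    · exact le_rfl
  · split_ifs
    · exact h0 b
    · exact le_rfl

theorem kk_sub (P P' : Sy → ℝ) (a : Fin (k + 1)) :
    |kk sy P a - kk sy P' a| ≤ (if a = 0 then ∑ b, |P b - P' b| else 0) +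
      ∑ b, if sy b = a then |P b - P' b| else 0 := by
  have h : kk sy P a - kk sy P' a = (if a = 0 then ∑ b, (P' b - P b) else 0) +
      ∑ b, if sy b = a then P b - P' b else 0 := by
    unfold kk
    have h1 : ∀ b, (if sy b = a then P b - P' b else 0) =
        (if sy b = a then P b else 0) - (if sy b = a then P' b else 0) := by
      intro b
      split_ifs <;> simp
    rw [sum_congr rfl fun b _ => h1 b, sum_sub_distrib, sum_sub_distrib]
    split_ifs <;> ring
  rw [h]
  refine (abs_add_le _ _).trans (add_le_add ?_ ?_)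
  · split_ifs
    · refine (abs_sum_le_sum_abs _ _).trans (le_of_eq (sum_congr rfl fun b _ => abs_sub_comm _ _))
    · simp
  · refine (abs_sum_le_sum_abs _ _).trans (le_of_eq (sum_congr rfl fun b _ => ?_))
    split_ifs <;> simp

theorem kk_sub_le (P P' : Sy → ℝ) (a : Fin (k + 1)) :
    |kk sy P a - kk sy P' a| ≤ 2 * ∑ b, |P b - P' b| := by
  refine (kk_sub P P' a).trans ?_
  have h1 : (if a = 0 then ∑ b, |P b - P' b| else 0) ≤ ∑ b, |P b - P' b| := by
    split_ifs
    · exact le_rfl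
    · exact sum_nonneg fun b _ => abs_nonneg _
  have h2 : (∑ b, if sy b = a then |P b - P' b| else 0) ≤ ∑ b, |P b - P' b| := by
    refine sum_le_sum fun b _ => ?_
    split_ifs
    · exact le_rfl
    · exact abs_nonneg _
  linarith

theorem kk_sum_sub_le (P P' : Sy → ℝ) :
    ∑ a, |kk sy P a - kk sy P' a| ≤ 2 * ∑ b, |P b - P' b| := by
  refine (sum_le_sum fun a _ => kk_sub P P' a).trans ?_
  rw [sum_add_distrib, sum_comm]
  simp [two_mul]

end Sym

section Sets

variable {V : Type} {k : ℕ} {Sy : Type} [Fintype Sy]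

/-- The void particles in `A`, except at `v`, that are not excluded by particles of `y` in `A`. -/
def JS (sy : Sy → Fin (k + 1)) (N : V × Sy → V × Sy → Prop) (v : V) (A : Set V) (y : Cfg V k) :
    Set (V × Sy) :=
  {z | z.1 ∈ A ∧ z.1 ≠ v ∧ (∀ c, y z.1 ≠ sy c) ∧
    ∀ u ∈ A, u ≠ v → ∀ c, y u = sy c → ¬ N z (u, c)}

/-- The particle `x` is not excluded by the particles of `y` in `A`. -/
def cp (sy : Sy → Fin (k + 1)) (N : V × Sy → V × Sy → Prop) (A : Set V) (y : Cfg V k)
    (x : V × Sy) : Prop :=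
  ∀ u ∈ A, u ≠ x.1 → ∀ c, y u = sy c → ¬ N x (u, c)

end Sets

section Main

variable {V : Type} {G : SimpleGraph V} {k m : ℕ} {Sy : Type} [Fintype Sy]
  {sy : Sy → Fin (k + 1)} {N : V × Sy → V × Sy → Prop} [DecidableRel N] {q : V × Sy → ℝ}
  [DecidableEq (V × Sy)] {f : Finset (V × Sy) → ℝ}

/-- The particles at distance at most `n` from `v`. -/
noncomputable def bx (hG : Geo G) (Sy : Type) [Fintype Sy] (v : V) (n : ℕ) : Finset (V × Sy) :=
  (hG.ball v n).toFinset ×ˢ univ

theorem mem_bx (hG : Geo G) (v : V) (n : ℕ) (x : V × Sy) :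
    x ∈ bx hG Sy v n ↔ G.dist v x.1 ≤ n := by
  rw [bx, mem_product, Set.Finite.mem_toFinset]
  simp

open Classical in
/-- The relevant void particles at distance at most `n` from `v`. -/
noncomputable def Jn (hG : Geo G) (sy : Sy → Fin (k + 1)) (N : V × Sy → V × Sy → Prop) (n : ℕ)
    (v : V) (A : Set V) (y : Cfg V k) : Finset (V × Sy) :=
  (bx hG Sy v n).filter fun z => z ∈ JS sy N v A y

open Classical in
theorem mem_Jn (hG : Geo G) (n : ℕ) (v : V) (A : Set V) (y : Cfg V k) (z : V × Sy) :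
    z ∈ Jn hG sy N n v A y ↔ G.dist v z.1 ≤ n ∧ z ∈ JS sy N v A y := by
  rw [Jn, mem_filter, mem_bx]

open Classical in
/-- All particles at distance at most `n` from `v`, except those at `v`. -/
noncomputable def Fn (hG : Geo G) (Sy : Type) [Fintype Sy] (n : ℕ) (v : V) : Finset (V × Sy) :=
  (bx hG Sy v n).filter fun z => z.1 ≠ v

open Classical in
theorem mem_Fn (hG : Geo G) (n : ℕ) (v : V) (z : V × Sy) :
    z ∈ Fn hG Sy n v ↔ G.dist v z.1 ≤ n ∧ z.1 ≠ v := by
  rw [Fn, mem_filter, mem_bx]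

open Classical in
/-- The conditional probability of the particle `b` at `v`, computed in the ball of radius `n`. -/
noncomputable def pz (hG : Geo G) (sy : Sy → Fin (k + 1)) (N : V × Sy → V × Sy → Prop)
    [DecidableRel N] (q : V × Sy → ℝ) (f : Finset (V × Sy) → ℝ) (n : ℕ) (v : V) (A : Set V)
    (y : Cfg V k) (b : Sy) : ℝ :=
  if cp sy N A y (v, b) then rr N q f (v, b) (Jn hG sy N n v A y) else 0

/-- The conditional probability of the particle `b` at `v`. -/
noncomputable def pzi (hG : Geo G) (sy : Sy → Fin (k + 1)) (N : V × Sy → V × Sy → Prop)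
    [DecidableRel N] (q : V × Sy → ℝ) (f : Finset (V × Sy) → ℝ) (v : V) (A : Set V)
    (y : Cfg V k) (b : Sy) : ℝ :=
  ⨆ n, pz hG sy N q f n v A y b

/-- The approximate kernels. -/
noncomputable def qk (hG : Geo G) (sy : Sy → Fin (k + 1)) (N : V × Sy → V × Sy → Prop)
    [DecidableRel N] (q : V × Sy → ℝ) (f : Finset (V × Sy) → ℝ) (n : ℕ) : Kern V k :=
  fun v A y a => kk sy (pz hG sy N q f n v A y) a

/-- The kernel. -/
noncomputable def pk (hG : Geo G) (sy : Sy → Fin (k + 1)) (N : V × Sy → V × Sy → Prop)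
    [DecidableRel N] (q : V × Sy → ℝ) (f : Finset (V × Sy) → ℝ) : Kern V k :=
  fun v A y a => kk sy (pzi hG sy N q f v A y) a

variable (hG : Geo G) (hM : Model G k m Sy sy N q f)
include hG hM

theorem Jn_notMem (n : ℕ) (v : V) (A : Set V) (y : Cfg V k) (b : Sy) :
    (v, b) ∉ Jn hG sy N n v A y := by
  rw [mem_Jn]
  exact fun h => h.2.2.1 rfl

theorem Jn_mono {n n' : ℕ} (h : n ≤ n') (v : V) (A : Set V) (y : Cfg V k) :
    Jn hG sy N n v A y ⊆ Jn hG sy N n' v A y := by
  intro z hz
  rw [mem_Jn] at hz ⊢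
  exact ⟨hz.1.trans h, hz.2⟩

theorem pz_nonneg (n : ℕ) (v : V) (A : Set V) (y : Cfg V k) (b : Sy) :
    0 ≤ pz hG sy N q f n v A y b := by
  unfold pz
  split_ifs
  · exact (hM.void.rr_pos _ _).le
  · exact le_rfl

theorem pz_mono {n n' : ℕ} (h : n ≤ n') (v : V) (A : Set V) (y : Cfg V k) (b : Sy) :
    pz hG sy N q f n v A y b ≤ pz hG sy N q f n' v A y b := by
  unfold pz
  split_ifs
  · exact hM.void.rr_mono (Jn_mono hG hM h v A y) _
  · exact le_rfl

/-- The total probability of the particles at one vertex. -/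
theorem sum_rr_le (v : V) (K : Finset (V × Sy)) (hK : ∀ b, (v, b) ∉ K) :
    ∑ b, rr N q f (v, b) K ≤ 1 := by
  classical
  have key : ∀ S : Finset Sy, f (K ∪ S.image fun b => (v, b)) =
      f K * (1 - ∑ b ∈ S, rr N q f (v, b) K) := by
    intro S
    induction S using Finset.induction_on with
    | empty => simp
    | insert c S hc ih =>
      have h1 : (v, c) ∉ K ∪ S.image fun b => (v, b) := by
        rw [mem_union, not_or]
        refine ⟨hK c, ?_⟩
        rw [mem_image]
        rintro ⟨b, hb, he⟩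
        rw [Prod.mk.injEq] at he
        exact hc (he.2 ▸ hb)
      rw [image_insert, union_insert, hM.void.step _ _ h1, ih, sum_insert hc]
      have h2 : rm N (v, c) (K ∪ S.image fun b => (v, b)) = rm N (v, c) K := by
        rw [rm, filter_union, rm]
        have h3 : (S.image fun b => (v, b)).filter (fun y => ¬ N (v, c) y) = ∅ := by
          refine filter_eq_empty_iff.2 ?_
          intro x hx
          obtain ⟨b, hb, rfl⟩ := mem_image.1 hx
          exact not_not.2 (hM.same v c b fun hcb => hc (hcb ▸ hb))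
        rw [h3, union_empty]
      rw [h2, rr, uu]
      have := (hM.void.pos K).ne'
      field_simp
      ring
  have h1 := key univ
  have h2 := hM.void.pos (K ∪ (univ : Finset Sy).image fun b => (v, b))
  rw [h1] at h2
  have h3 := (pos_iff_pos_of_mul_pos h2).1 (hM.void.pos K)
  linarith

theorem pz_sum_le (n : ℕ) (v : V) (A : Set V) (y : Cfg V k) :
    ∑ b, pz hG sy N q f n v A y b ≤ 1 := by
  refine le_trans (sum_le_sum fun b _ => ?_) (sum_rr_le hG hM v (Jn hG sy N n v A y)
    fun b => Jn_notMem hG hM n v A y b)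
  unfold pz
  split_ifs
  · exact le_rfl
  · exact (hM.void.rr_pos _ _).le

theorem pz_le_one (n : ℕ) (v : V) (A : Set V) (y : Cfg V k) (b : Sy) :
    pz hG sy N q f n v A y b ≤ 1 :=
  (single_le_sum (f := fun b => pz hG sy N q f n v A y b)
    (fun b _ => pz_nonneg hG hM n v A y b) (mem_univ b)).trans (pz_sum_le hG hM n v A y)

theorem pz_bdd (v : V) (A : Set V) (y : Cfg V k) (b : Sy) :
    BddAbove (Set.range fun n => pz hG sy N q f n v A y b) :=
  ⟨1, by
    rintro _ ⟨n, rfl⟩
    exact pz_le_one hG hM n v A y b⟩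

theorem pz_tendsto (v : V) (A : Set V) (y : Cfg V k) (b : Sy) :
    Tendsto (fun n => pz hG sy N q f n v A y b) atTop (𝓝 (pzi hG sy N q f v A y b)) :=
  tendsto_atTop_ciSup (fun _ _ h => pz_mono hG hM h v A y b) (pz_bdd hG hM v A y b)

theorem pz_le_pzi (n : ℕ) (v : V) (A : Set V) (y : Cfg V k) (b : Sy) :
    pz hG sy N q f n v A y b ≤ pzi hG sy N q f v A y b :=
  le_ciSup (pz_bdd hG hM v A y b) n

theorem pzi_nonneg (v : V) (A : Set V) (y : Cfg V k) (b : Sy) :
    0 ≤ pzi hG sy N q f v A y b :=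
  (pz_nonneg hG hM 0 v A y b).trans (pz_le_pzi hG hM 0 v A y b)

theorem pzi_sum_le (v : V) (A : Set V) (y : Cfg V k) :
    ∑ b, pzi hG sy N q f v A y b ≤ 1 :=
  le_of_tendsto (tendsto_finsetSum univ fun b _ => pz_tendsto hG hM v A y b)
    (Eventually.of_forall fun n => pz_sum_le hG hM n v A y)

/-- The comparison with the full set. -/
theorem pz_sub_le {n n' : ℕ} (h : n ≤ n') (v : V) (A : Set V) (y : Cfg V k) (b : Sy) :
    pz hG sy N q f n' v A y b - pz hG sy N q f n v A y b ≤
      rr N q f (v, b) (Fn hG Sy n' v) - rr N q f (v, b) (Fn hG Sy n v) := by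
  classical
  have hF : Fn hG Sy n v ⊆ Fn hG Sy n' v := by
    intro z hz
    rw [mem_Fn] at hz ⊢
    exact ⟨hz.1.trans h, hz.2⟩
  by_cases hc : cp sy N A y (v, b)
  · unfold pz
    rw [if_pos hc, if_pos hc]
    set D := Jn hG sy N n' v A y \ bx hG Sy v n with hD
    have h1 : Jn hG sy N n v A y ∪ D = Jn hG sy N n' v A y := by
      ext z
      rw [mem_union, hD, Finset.mem_sdiff, mem_Jn, mem_Jn, mem_bx]
      constructor
      · rintro (h1 | h1)
        · exact ⟨h1.1.trans h, h1.2⟩
        · exact h1.1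
      · intro h1
        by_cases h2 : G.dist v z.1 ≤ n
        · exact Or.inl ⟨h2, h1.2⟩
        · exact Or.inr ⟨h1, h2⟩
    have h2 : Jn hG sy N n v A y ⊆ Fn hG Sy n v := by
      intro z hz
      rw [mem_Jn] at hz
      rw [mem_Fn]
      exact ⟨hz.1, hz.2.2.1⟩
    have h3 : Disjoint (Fn hG Sy n v) D := by
      rw [disjoint_left]
      intro z hz hz'
      rw [mem_Fn] at hz
      rw [hD, Finset.mem_sdiff, mem_bx] at hz'
      exact hz'.2 hz.1
    have h4 : Fn hG Sy n v ∪ D ⊆ Fn hG Sy n' v := by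
      refine union_subset hF fun z hz => ?_
      rw [hD, Finset.mem_sdiff, mem_Jn] at hz
      rw [mem_Fn]
      exact ⟨hz.1.1, hz.1.2.2.1⟩
    have h5 := hM.void.rr_union h2 (v, b) D h3
    rw [h1] at h5
    have h6 := hM.void.rr_mono h4 (v, b)
    linarith
  · unfold pz
    rw [if_neg hc, if_neg hc, sub_zero]
    exact sub_nonneg.2 (hM.void.rr_mono hF (v, b))

/-- Invariance of `rr`. -/
theorem rr_image (g : G ≃g G) (x : V × Sy) (K : Finset (V × Sy)) :
    rr N q f (g x.1, x.2) (K.image fun x => (g x.1, x.2)) = rr N q f x K := by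
  have h1 : rm N (g x.1, x.2) (K.image fun x => (g x.1, x.2)) =
      (rm N x K).image fun x => (g x.1, x.2) := by
    rw [rm, filter_image, rm]
    congr 1
    ext z
    rw [mem_filter, mem_filter, hM.invN]
  rw [rr, uu, h1, hM.invf, hM.invf, hM.invq]
  rfl

theorem Fn_image (g : G ≃g G) (n : ℕ) (v : V) :
    Fn hG Sy n (g v) = (Fn hG Sy n v).image fun x => (g x.1, x.2) := by
  ext z
  rw [mem_Fn, mem_image]
  constructor
  · rintro ⟨h1, h2⟩
    refine ⟨(g.symm z.1, z.2), ?_, ?_⟩
    · rw [mem_Fn]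
      refine ⟨?_, ?_⟩
      · rw [← hG.dist g]
        simpa using h1
      · intro h3
        exact h2 (by rw [← h3]; simp)
    · simp
  · rintro ⟨x, hx, rfl⟩
    rw [mem_Fn] at hx
    refine ⟨?_, ?_⟩
    · rw [hG.dist g]
      exact hx.1
    · intro h
      exact hx.2 (g.injective h)

theorem rr_Fn (n : ℕ) (v w : V) (b : Sy) :
    rr N q f (v, b) (Fn hG Sy n v) = rr N q f (w, b) (Fn hG Sy n w) := by
  obtain ⟨g, hg, -⟩ := hG.swap v w
  rw [← rr_image hG hM g (v, b), ← Fn_image hG hM, hg]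

theorem rr_Fn_mono {n n' : ℕ} (h : n ≤ n') (v : V) (b : Sy) :
    rr N q f (v, b) (Fn hG Sy n v) ≤ rr N q f (v, b) (Fn hG Sy n' v) := by
  refine hM.void.rr_mono (fun z hz => ?_) _
  rw [mem_Fn] at hz ⊢
  exact ⟨hz.1.trans h, hz.2⟩

theorem rr_Fn_le (n : ℕ) (v : V) (b : Sy) : rr N q f (v, b) (Fn hG Sy n v) ≤ 1 := by
  refine (hM.void.rr_lt _ _ ?_).le
  rw [mem_Fn]
  exact fun h => h.2 rfl

/-- The error. -/
theorem exists_err : ∃ δ : ℕ → ℝ, Tendsto δ atTop (𝓝 0) ∧ (∀ n, 0 ≤ δ n) ∧
    ∀ n v A y, ∑ b, |pz hG sy N q f n v A y b - pzi hG sy N q f v A y b| ≤ δ n := by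
  classical
  rcases isEmpty_or_nonempty V with hV | ⟨⟨o⟩⟩
  · exact ⟨fun _ => 0, tendsto_const_nhds, fun _ => le_rfl, fun n v => hV.elim v⟩
  set R : ℕ → Sy → ℝ := fun n b => rr N q f (o, b) (Fn hG Sy n o) with hR
  set L : Sy → ℝ := fun b => ⨆ n, R n b with hL
  have hb : ∀ b, BddAbove (Set.range fun n => R n b) := fun b => ⟨1, by
    rintro _ ⟨n, rfl⟩
    exact rr_Fn_le hG hM n o b⟩
  have ht : ∀ b, Tendsto (fun n => R n b) atTop (𝓝 (L b)) := fun b =>
    tendsto_atTop_ciSup (fun _ _ h => rr_Fn_mono hG hM h o b) (hb b)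
  refine ⟨fun n => ∑ b, (L b - R n b), ?_, fun n => ?_, fun n v A y => ?_⟩
  · have h1 : Tendsto (fun n => ∑ b, (L b - R n b)) atTop (𝓝 (∑ b, (L b - L b))) :=
      tendsto_finsetSum _ fun b _ => tendsto_const_nhds.sub (ht b)
    simpa using h1
  · exact sum_nonneg fun b _ => sub_nonneg.2 (le_ciSup (hb b) n)
  · refine sum_le_sum fun b _ => ?_
    rw [abs_sub_comm, abs_of_nonneg (sub_nonneg.2 (pz_le_pzi hG hM n v A y b))]
    have h1 : ∀ n', n ≤ n' → pz hG sy N q f n' v A y b - pz hG sy N q f n v A y b ≤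
        L b - R n b := by
      intro n' hn
      refine (pz_sub_le hG hM hn v A y b).trans ?_
      rw [rr_Fn hG hM n' v o b, rr_Fn hG hM n v o b]
      have := le_ciSup (hb b) n'
      exact sub_le_sub_right this _
    refine le_of_tendsto ((pz_tendsto hG hM v A y b).sub_const _) ?_
    filter_upwards [eventually_ge_atTop n] with n' hn using h1 n' hn

end Main

end Pool.Agent.SH95
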