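import Pool.Agent.Lib.SH95.Kernel

/-!
# The kernel of a hard-core process is good

Equivariance, locality, column bound.
-/

set_option autoImplicit false
set_option linter.unusedSectionVars false

open Filter Topology

namespace Pool.Agent.SH95

open Finset Pool.Agent.FD82

section Main

variable {V : Type} {G : SimpleGraph V} {k m : ℕ} {Sy : Type} [Fintype Sy]
  {sy : Sy → Fin (k + 1)} {N : V × Sy → V × Sy → Prop} [DecidableRel N] {q : V × Sy → ℝ}
  [DecidableEq (V × Sy)] {f : Finset (V × Sy) → ℝ}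

variable (hG : Geo G) (hM : Model G k m Sy sy N q f)
include hG hM

/-! ## Equivariance -/

theorem cp_equiv (g : G ≃g G) (v : V) (A : Set V) (y : Cfg V k) (b : Sy) :
    cp sy N A y (g v, b) ↔ cp sy N (g ⁻¹' A) (y ∘ g) (v, b) := by
  constructor
  · intro h u hu huv c hc hN
    refine h (g u) hu (fun he => huv (g.injective he)) c hc ?_
    exact (hM.invN g (v, b) (u, c)).2 hN
  · intro h u hu huv c hc hN
    have e : g (g.symm u) = u := g.apply_symm_apply u
    refine h (g.symm u) (by rw [Set.mem_preimage, e]; exact hu) (fun he => huv ?_) c ?_ ?_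
    · rw [← e, he]
    · rw [Function.comp_apply, e]
      exact hc
    · rw [← hM.invN g (v, b) (g.symm u, c)]
      change N (g v, b) (g (g.symm u), c)
      rw [e]
      exact hN

theorem Jn_equiv (g : G ≃g G) (n : ℕ) (v : V) (A : Set V) (y : Cfg V k) :
    Jn hG sy N n (g v) A y =
      (Jn hG sy N n v (g ⁻¹' A) (y ∘ g)).image fun x => (g x.1, x.2) := by
  have key : ∀ x : V × Sy, (g x.1, x.2) ∈ Jn hG sy N n (g v) A y ↔
      x ∈ Jn hG sy N n v (g ⁻¹' A) (y ∘ g) := by
    intro x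
    rw [mem_Jn, mem_Jn]
    have h1 : G.dist (g v) (g x.1) = G.dist v x.1 := hG.dist g v x.1
    change (G.dist (g v) (g x.1) ≤ n ∧ _) ↔ _
    rw [h1]
    refine and_congr_right fun _ => ?_
    constructor
    · rintro ⟨a1, a2, a3, a4⟩
      refine ⟨a1, fun he => a2 (congrArg g he), a3, fun u hu huv c hc hN => ?_⟩
      exact a4 (g u) hu (fun he => huv (g.injective he)) c hc ((hM.invN g x (u, c)).2 hN)
    · rintro ⟨a1, a2, a3, a4⟩
      refine ⟨a1, fun he => a2 (g.injective he), a3, fun u hu huv c hc hN => ?_⟩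
      have e : g (g.symm u) = u := g.apply_symm_apply u
      refine a4 (g.symm u) (by rw [Set.mem_preimage, e]; exact hu) (fun he => huv ?_) c ?_ ?_
      · rw [← e, he]
      · rw [Function.comp_apply, e]
        exact hc
      · rw [← hM.invN g x (g.symm u, c)]
        change N (g x.1, x.2) (g (g.symm u), c)
        rw [e]
        exact hN
  ext z
  rw [mem_image]
  constructor
  · intro hz
    refine ⟨(g.symm z.1, z.2), ?_, ?_⟩
    · rw [← key]
      change (g (g.symm z.1), z.2) ∈ _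
      rw [g.apply_symm_apply]
      exact hz
    · change (g (g.symm z.1), z.2) = z
      rw [g.apply_symm_apply]
  · rintro ⟨x, hx, rfl⟩
    exact (key x).2 hx

theorem pz_equiv (g : G ≃g G) (n : ℕ) (v : V) (A : Set V) (y : Cfg V k) (b : Sy) :
    pz hG sy N q f n (g v) A y b = pz hG sy N q f n v (g ⁻¹' A) (y ∘ g) b := by
  classical
  unfold pz
  by_cases h : cp sy N A y (g v, b)
  · rw [if_pos h, if_pos ((cp_equiv hG hM g v A y b).1 h), Jn_equiv hG hM]
    exact rr_image hG hM g (v, b) _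
  · rw [if_neg h, if_neg (fun h' => h ((cp_equiv hG hM g v A y b).2 h'))]

theorem pzi_equiv (g : G ≃g G) (v : V) (A : Set V) (y : Cfg V k) (b : Sy) :
    pzi hG sy N q f (g v) A y b = pzi hG sy N q f v (g ⁻¹' A) (y ∘ g) b := by
  unfold pzi
  congr 1
  funext n
  exact pz_equiv hG hM g n v A y b

/-! ## Locality -/

theorem loc_cp {n : ℕ} {v : V} {A A' : Set V} {y y' : Cfg V k}
    (hA : ∀ w, G.dist v w ≤ n + m → (w ∈ A ↔ w ∈ A'))
    (hy : ∀ w ∈ A, G.dist v w ≤ n + m → y w = y' w) (b : Sy)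
    (h : cp sy N A y (v, b)) : cp sy N A' y' (v, b) := by
  intro u hu huv c hc hN
  have h1 : G.dist v u ≤ n + m := (hM.range _ _ hN).trans (Nat.le_add_left _ _)
  have h2 : u ∈ A := (hA u h1).2 hu
  exact h u h2 huv c ((hy u h2 h1).trans hc) hN

theorem loc_JS {n : ℕ} {v : V} {A A' : Set V} {y y' : Cfg V k}
    (hA : ∀ w, G.dist v w ≤ n + m → (w ∈ A ↔ w ∈ A'))
    (hy : ∀ w ∈ A, G.dist v w ≤ n + m → y w = y' w) (z : V × Sy) (hz : G.dist v z.1 ≤ n)
    (h : z ∈ JS sy N v A y) : z ∈ JS sy N v A' y' := by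
  obtain ⟨a1, a2, a3, a4⟩ := h
  have h0 : G.dist v z.1 ≤ n + m := hz.trans (Nat.le_add_right _ _)
  refine ⟨(hA _ h0).1 a1, a2, fun c hc => a3 c ((hy _ a1 h0).trans hc), fun u hu huv c hc hN => ?_⟩
  have h1 : G.dist v u ≤ n + m :=
    (hG.conn.dist_triangle (v := z.1)).trans (add_le_add hz (hM.range _ _ hN))
  have h2 : u ∈ A := (hA u h1).2 hu
  exact a4 u h2 huv c ((hy u h2 h1).trans hc) hN

theorem loc_pz {n : ℕ} {v : V} {A A' : Set V} {y y' : Cfg V k}
    (hA : ∀ w, G.dist v w ≤ n + m → (w ∈ A ↔ w ∈ A'))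
    (hy : ∀ w ∈ A, G.dist v w ≤ n + m → y w = y' w) (b : Sy) :
    pz hG sy N q f n v A y b = pz hG sy N q f n v A' y' b := by
  classical
  have hA' : ∀ w, G.dist v w ≤ n + m → (w ∈ A' ↔ w ∈ A) := fun w hw => (hA w hw).symm
  have hy' : ∀ w ∈ A', G.dist v w ≤ n + m → y' w = y w := fun w hw hd =>
    (hy w ((hA w hd).2 hw) hd).symm
  have hJ : Jn hG sy N n v A y = Jn hG sy N n v A' y' := by
    ext z
    rw [mem_Jn, mem_Jn]
    exact and_congr_right fun hz => ⟨loc_JS hG hM hA hy z hz, loc_JS hG hM hA' hy' z hz⟩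
  unfold pz
  rw [hJ]
  by_cases h : cp sy N A y (v, b)
  · rw [if_pos h, if_pos (loc_cp hG hM hA hy b h)]
  · rw [if_neg h, if_neg (fun h' => h (loc_cp hG hM hA' hy' b h'))]

/-! ## The column bound -/

theorem card_bx : ∃ M : ℕ, ∀ w, (bx hG Sy w m).card ≤ M := by
  classical
  rcases isEmpty_or_nonempty V with hV | ⟨⟨o⟩⟩
  · exact ⟨0, fun w => hV.elim w⟩
  refine ⟨(bx hG Sy o m).card, fun w => ?_⟩
  obtain ⟨g, hg, -⟩ := hG.swap o w
  have h1 : bx hG Sy w m ⊆ (bx hG Sy o m).image fun x => (g x.1, x.2) := by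
    intro z hz
    rw [mem_bx] at hz
    rw [mem_image]
    refine ⟨(g.symm z.1, z.2), ?_, ?_⟩
    · rw [mem_bx, ← hG.dist g]
      change G.dist (g o) (g (g.symm z.1)) ≤ m
      rw [g.apply_symm_apply, hg]
      exact hz
    · change (g (g.symm z.1), z.2) = z
      rw [g.apply_symm_apply]
  exact (card_le_card h1).trans card_image_le

/-- Void particles for `y` but not for `y'` are close to the vertex where `y` and `y'` differ. -/
theorem JS_diff {v w : V} {A : Set V} {y y' : Cfg V k} (hyy : ∀ u, u ≠ w → y u = y' u)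
    {z : V × Sy} (h : z ∈ JS sy N v A y) (h' : z ∉ JS sy N v A y') : G.dist w z.1 ≤ m := by
  by_contra hd
  refine h' ⟨h.1, h.2.1, fun c hc => ?_, fun u hu huv c hc hN => ?_⟩
  · by_cases hz : z.1 = w
    · rw [hz, SimpleGraph.dist_self] at hd
      exact hd (Nat.zero_le _)
    · exact h.2.2.1 c ((hyy _ hz).trans hc)
  · by_cases huw : u = w
    · have h1 := hM.range _ _ hN
      rw [SimpleGraph.dist_comm, ← huw] at hd
      exact hd h1
    · exact h.2.2.2 u hu huv c ((hyy _ huw).trans hc) hN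

theorem cp_diff {w : V} {A : Set V} {y y' : Cfg V k} (hyy : ∀ u, u ≠ w → y u = y' u)
    {x : V × Sy} (h : cp sy N A y x) (h' : ¬ cp sy N A y' x) : G.dist w x.1 ≤ m := by
  by_contra hd
  refine h' fun u hu hux c hc hN => ?_
  by_cases huw : u = w
  · have h1 := hM.range _ _ hN
    rw [SimpleGraph.dist_comm, ← huw] at hd
    exact hd h1
  · exact h u hu hux c ((hyy _ huw).trans hc) hN

/-- The one-sided estimate. -/
theorem col_half (n : ℕ) {w : V} {A : Set V} {y y' : Cfg V k} (hyy : ∀ u, u ≠ w → y u = y' u)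
    (T : Finset V) (hT : ∀ v ∈ T, v ∉ A) :
    ∑ v ∈ T, ∑ b : Sy, (rr N q f (v, b) (Jn hG sy N n v A y) -
      rr N q f (v, b) (Jn hG sy N n v A y ∩ Jn hG sy N n v A y')) ≤ (bx hG Sy w m).card := by
  classical
  set B : Finset (V × Sy) := T.biUnion fun v => bx hG Sy v n with hB
  set JA : Cfg V k → Set (V × Sy) := fun y => {z | z.1 ∈ A ∧ (∀ c, y z.1 ≠ sy c) ∧
    ∀ u ∈ A, ∀ c, y u = sy c → ¬ N z (u, c)} with hJA
  have hJS : ∀ v ∈ T, ∀ (y : Cfg V k) z, z ∈ JS sy N v A y ↔ z ∈ JA y := by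
    intro v hv y z
    constructor
    · rintro ⟨a1, a2, a3, a4⟩
      exact ⟨a1, a3, fun u hu c hc => a4 u hu (fun he => hT v hv (he ▸ hu)) c hc⟩
    · rintro ⟨a1, a3, a4⟩
      exact ⟨a1, fun he => hT v hv (he ▸ a1), a3, fun u hu _ c hc => a4 u hu c hc⟩
  set J : Finset (V × Sy) := B.filter fun z => z ∈ JA y with hJ
  set J' : Finset (V × Sy) := B.filter fun z => z ∈ JA y' with hJ'
  have hJv : ∀ v ∈ T, ∀ z, z ∈ Jn hG sy N n v A y ↔ z ∈ bx hG Sy v n ∧ z ∈ JA y := by
    intro v hv z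
    rw [mem_Jn, mem_bx, hJS v hv]
  have hJv' : ∀ v ∈ T, ∀ z, z ∈ Jn hG sy N n v A y' ↔ z ∈ bx hG Sy v n ∧ z ∈ JA y' := by
    intro v hv z
    rw [mem_Jn, mem_bx, hJS v hv]
  have h1 : ∀ v ∈ T, ∀ b : Sy, rr N q f (v, b) (Jn hG sy N n v A y) -
      rr N q f (v, b) (Jn hG sy N n v A y ∩ Jn hG sy N n v A y') ≤
      rr N q f (v, b) ((J ∩ J') ∪ (J \ J')) - rr N q f (v, b) (J ∩ J') := by
    intro v hv b
    have hsub : ∀ z ∈ bx hG Sy v n, z ∈ B := fun z hz => mem_biUnion.2 ⟨v, hv, hz⟩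
    set D := Jn hG sy N n v A y \ Jn hG sy N n v A y' with hD
    have e1 : (Jn hG sy N n v A y ∩ Jn hG sy N n v A y') ∪ D = Jn hG sy N n v A y := by
      rw [hD, union_comm]
      exact sdiff_union_inter _ _
    have s1 : Jn hG sy N n v A y ∩ Jn hG sy N n v A y' ⊆ J ∩ J' := by
      intro z hz
      rw [mem_inter, hJv v hv, hJv' v hv] at hz
      rw [mem_inter, hJ, hJ', mem_filter, mem_filter]
      exact ⟨⟨hsub z hz.1.1, hz.1.2⟩, ⟨hsub z hz.1.1, hz.2.2⟩⟩
    have s2 : Disjoint (J ∩ J') D := by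
      rw [disjoint_left]
      intro z hz hz'
      rw [mem_inter, hJ, hJ', mem_filter, mem_filter] at hz
      rw [hD, Finset.mem_sdiff, hJv v hv, hJv' v hv] at hz'
      exact hz'.2 ⟨hz'.1.1, hz.2.2⟩
    have s3 : (J ∩ J') ∪ D ⊆ (J ∩ J') ∪ (J \ J') := by
      refine union_subset_union_right fun z hz => ?_
      rw [hD, Finset.mem_sdiff, hJv v hv, hJv' v hv] at hz
      rw [Finset.mem_sdiff, hJ, hJ', mem_filter, mem_filter]
      exact ⟨⟨hsub z hz.1.1, hz.1.2⟩, fun hh => hz.2 ⟨hz.1.1, hh.2⟩⟩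
    have h2 := hM.void.rr_union s1 (v, b) D s2
    rw [e1] at h2
    have h3 := hM.void.rr_mono s3 (v, b)
    linarith
  refine (sum_le_sum fun v hv => sum_le_sum fun b _ => h1 v hv b).trans ?_
  rw [← sum_product' T (univ : Finset Sy) (fun v b =>
    rr N q f (v, b) ((J ∩ J') ∪ (J \ J')) - rr N q f (v, b) (J ∩ J'))]
  have h4 := hM.void.sum_union_le (J ∩ J') (T ×ˢ (univ : Finset Sy)) (J \ J')
    (by
      rw [disjoint_left]
      intro z hz hz'
      exact (Finset.mem_sdiff.1 hz').2 (mem_inter.1 hz).2)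
    (by
      rw [disjoint_left]
      intro z hz hz'
      have hzA : z.1 ∈ A := by
        rw [mem_union, mem_inter, Finset.mem_sdiff, hJ, mem_filter] at hz
        rcases hz with hz | hz
        · exact hz.1.2.1
        · exact hz.1.2.1
      exact hT z.1 (mem_product.1 hz').1 hzA)
  refine h4.trans ?_
  rw [Nat.cast_le]
  refine card_le_card fun z hz => ?_
  rw [Finset.mem_sdiff, hJ, hJ', mem_filter, mem_filter] at hz
  obtain ⟨⟨hzB, hzy⟩, hz2⟩ := hz
  obtain ⟨v, hv, -⟩ := mem_biUnion.1 hzB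
  rw [mem_bx]
  exact JS_diff hG hM hyy ((hJS v hv y z).2 hzy) fun hh => hz2 ⟨hzB, (hJS v hv y' z).1 hh⟩

theorem col_pz (n : ℕ) {w : V} {A : Set V} {y y' : Cfg V k} (hyy : ∀ u, u ≠ w → y u = y' u)
    (T : Finset V) (hT : ∀ v ∈ T, v ∉ A) :
    ∑ v ∈ T, ∑ b : Sy, |pz hG sy N q f n v A y b - pz hG sy N q f n v A y' b| ≤
      3 * (bx hG Sy w m).card := by
  classical
  have hyy' : ∀ u, u ≠ w → y' u = y u := fun u hu => (hyy u hu).symm
  have h1 := col_half hG hM n hyy T hT
  have h2 := col_half hG hM n hyy' T hT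
  have h3 : ∑ v ∈ T, ∑ b : Sy, (if (v, b) ∈ bx hG Sy w m then (1 : ℝ) else 0) ≤
      (bx hG Sy w m).card := by
    rw [← sum_product' T (univ : Finset Sy) (fun v b =>
      if (v, b) ∈ bx hG Sy w m then (1 : ℝ) else 0), ← sum_filter, sum_const, nsmul_eq_mul,
      mul_one, Nat.cast_le]
    refine card_le_card fun z hz => ?_
    exact (mem_filter.1 hz).2
  have key : ∀ v ∈ T, ∀ b : Sy, |pz hG sy N q f n v A y b - pz hG sy N q f n v A y' b| ≤
      (rr N q f (v, b) (Jn hG sy N n v A y) -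
        rr N q f (v, b) (Jn hG sy N n v A y ∩ Jn hG sy N n v A y')) +
      (rr N q f (v, b) (Jn hG sy N n v A y') -
        rr N q f (v, b) (Jn hG sy N n v A y' ∩ Jn hG sy N n v A y)) +
      (if (v, b) ∈ bx hG Sy w m then (1 : ℝ) else 0) := by
    intro v _ b
    have a1 := hM.void.rr_mono (inter_subset_left
      (s₁ := Jn hG sy N n v A y) (s₂ := Jn hG sy N n v A y')) (v, b)
    have a2 := hM.void.rr_mono (inter_subset_left
      (s₁ := Jn hG sy N n v A y') (s₂ := Jn hG sy N n v A y)) (v, b)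
    have a3 : (0 : ℝ) ≤ (if (v, b) ∈ bx hG Sy w m then (1 : ℝ) else 0) := by
      split_ifs <;> norm_num
    have a4 := pz_nonneg hG hM n v A y b
    have a5 := pz_nonneg hG hM n v A y' b
    have a6 := pz_le_one hG hM n v A y b
    have a7 := pz_le_one hG hM n v A y' b
    by_cases c1 : cp sy N A y (v, b)
    · by_cases c2 : cp sy N A y' (v, b)
      · unfold pz
        rw [if_pos c1, if_pos c2]
        rw [inter_comm (Jn hG sy N n v A y') (Jn hG sy N n v A y)] at a2 ⊢
        rw [abs_le]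
        constructor <;> linarith
      · have h5 : (v, b) ∈ bx hG Sy w m := (mem_bx hG w m (v, b)).2 (cp_diff hG hM hyy c1 c2)
        rw [if_pos h5]
        have : |pz hG sy N q f n v A y b - pz hG sy N q f n v A y' b| ≤ 1 := by
          rw [abs_le]
          constructor <;> linarith
        linarith
    · by_cases c2 : cp sy N A y' (v, b)
      · have h5 : (v, b) ∈ bx hG Sy w m := (mem_bx hG w m (v, b)).2 (cp_diff hG hM hyy' c2 c1)
        rw [if_pos h5]
        have : |pz hG sy N q f n v A y b - pz hG sy N q f n v A y' b| ≤ 1 := by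
          rw [abs_le]
          constructor <;> linarith
        linarith
      · have h5 : pz hG sy N q f n v A y b - pz hG sy N q f n v A y' b = 0 := by
          unfold pz
          rw [if_neg c1, if_neg c2, sub_zero]
        rw [h5, abs_zero]
        linarith
  refine (sum_le_sum fun v hv => sum_le_sum fun b _ => key v hv b).trans ?_
  simp only [sum_add_distrib]
  linarith

/-! ## The kernel is good -/

theorem isKer : ∃ C : ℝ, 0 ≤ C ∧ IsKer G C (pk hG sy N q f) := by
  classical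
  obtain ⟨M, hMc⟩ := card_bx hG hM
  obtain ⟨δ, hδ, hδ0, hδ'⟩ := exists_err hG hM
  refine ⟨6 * M, by positivity, ⟨fun v A y a => ?_, fun v A y => kk_sum _, fun g v A y a => ?_,
    qk hG sy N q f, fun n => n + m, fun n => 2 * δ n, ?_⟩⟩
  · exact kk_nonneg (fun b => pzi_nonneg hG hM v A y b) (pzi_sum_le hG hM v A y) a
  · unfold pk
    congr 1
    funext b
    exact pzi_equiv hG hM g v A y b
  · refine ⟨?_, ?_, ?_, ?_, ?_⟩
    · simpa using hδ.const_mul 2
    · intro n v A A' y y' a hA hy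
      unfold qk
      congr 1
      funext b
      exact loc_pz hG hM hA hy b
    · intro n v A y a
      exact (kk_sub_le _ _ a).trans (mul_le_mul_of_nonneg_left (hδ' n v A y) (by norm_num))
    · intro n A w y y' hyy T hT
      have h1 : ∑ v ∈ T, ∑ a, |qk hG sy N q f n v A y a - qk hG sy N q f n v A y' a| ≤
          ∑ v ∈ T, 2 * ∑ b : Sy, |pz hG sy N q f n v A y b - pz hG sy N q f n v A y' b| :=
        sum_le_sum fun v _ => kk_sum_sub_le _ _
      rw [← mul_sum] at h1
      have h2 := col_pz hG hM n hyy T hT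
      have h3 : ((bx hG Sy w m).card : ℝ) ≤ M := by
        exact_mod_cast hMc w
      have h4 := hδ0 n
      linarith
    · intro n g v A y a
      unfold qk
      congr 1
      funext b
      exact pz_equiv hG hM g n v A y b

end Main

end Pool.Agent.SH95
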