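import Pool.Agent.Lib.SH95.Kernel2
import Pool.Agent.Lib.FD82.E3_Main

/-!
# Pinned void probabilities

For a law `μ` of configurations whose particles are independent as long as no two of them exclude
each other, the probability that the particles of `I` are present and those of `K` absent is
`(∏ x ∈ I, q x) * f (K \ N I)`, if no two particles of `I` exclude each other.
-/

set_option autoImplicit false
set_option linter.unusedSectionVars false

open MeasureTheory Filter Topology

namespace Pool.Agent.SH95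

open Finset Pool.Agent.FD82

variable {V : Type} {k : ℕ} {Sy : Type}

/-- Exclusion: two different particles that are never present at the same time. -/
def NN (μ : Measure (Cfg V k)) (sy : Sy → Fin (k + 1)) (x y : V × Sy) : Prop :=
  x ≠ y ∧ μ.real {ω | ω x.1 = sy x.2 ∧ ω y.1 = sy y.2} = 0

/-- The density. -/
noncomputable def qq (μ : Measure (Cfg V k)) (sy : Sy → Fin (k + 1)) (x : V × Sy) : ℝ :=
  μ.real {ω | ω x.1 = sy x.2}

/-- The void probability. -/
noncomputable def ff (μ : Measure (Cfg V k)) (sy : Sy → Fin (k + 1)) (K : Finset (V × Sy)) : ℝ :=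
  μ.real {ω | ∀ x ∈ K, ω x.1 ≠ sy x.2}

/-- The probability that the particles of `I` are present and those of `K` absent. -/
noncomputable def MK (μ : Measure (Cfg V k)) (sy : Sy → Fin (k + 1)) (I K : Finset (V × Sy)) : ℝ :=
  μ.real {ω | (∀ x ∈ I, ω x.1 = sy x.2) ∧ ∀ y ∈ K, ω y.1 ≠ sy y.2}

theorem meas_par (sy : Sy → Fin (k + 1)) (x : V × Sy) :
    MeasurableSet {ω : Cfg V k | ω x.1 = sy x.2} :=
  measurableSet_site x.1 (sy x.2)

section

variable (μ : Measure (Cfg V k)) (sy : Sy → Fin (k + 1))

theorem NN_symm {x y : V × Sy} (h : NN μ sy x y) : NN μ sy y x :=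
  ⟨h.1.symm, by
    rw [← h.2]
    congr 1
    ext ω
    exact and_comm⟩

variable [IsProbabilityMeasure μ]

theorem MK_insert [DecidableEq (V × Sy)] (I K : Finset (V × Sy)) (y : V × Sy) :
    MK μ sy I (insert y K) = MK μ sy I K - MK μ sy (insert y I) K := by
  have h1 := measureReal_inter_add_sdiff (μ := μ)
    (s := {ω : Cfg V k | (∀ x ∈ I, ω x.1 = sy x.2) ∧ ∀ y ∈ K, ω y.1 ≠ sy y.2}) (meas_par sy y)
  have h2 : {ω : Cfg V k | (∀ x ∈ I, ω x.1 = sy x.2) ∧ ∀ y ∈ K, ω y.1 ≠ sy y.2} ∩
      {ω : Cfg V k | ω y.1 = sy y.2} =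
      {ω : Cfg V k | (∀ x ∈ insert y I, ω x.1 = sy x.2) ∧ ∀ y ∈ K, ω y.1 ≠ sy y.2} := by
    ext ω
    simp only [Set.mem_inter_iff, Set.mem_ofPred_eq, mem_insert, forall_eq_or_imp]
    tauto
  have h3 : {ω : Cfg V k | (∀ x ∈ I, ω x.1 = sy x.2) ∧ ∀ y ∈ K, ω y.1 ≠ sy y.2} \
      {ω : Cfg V k | ω y.1 = sy y.2} =
      {ω : Cfg V k | (∀ x ∈ I, ω x.1 = sy x.2) ∧ ∀ z ∈ insert y K, ω z.1 ≠ sy z.2} := by
    ext ω
    simp only [Set.mem_sdiff, Set.mem_ofPred_eq, mem_insert, forall_eq_or_imp]
    tauto
  rw [h2, h3] at h1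
  unfold MK
  linarith

theorem MK_empty_left (K : Finset (V × Sy)) : MK μ sy ∅ K = ff μ sy K := by
  unfold MK ff
  congr 1
  ext ω
  simp

theorem ff_empty : ff μ sy ∅ = 1 := by
  unfold ff
  simp

theorem ff_nonneg (K : Finset (V × Sy)) : 0 ≤ ff μ sy K := measureReal_nonneg

end

section

variable (μ : Measure (Cfg V k)) [IsProbabilityMeasure μ] (sy : Sy → Fin (k + 1))
  [DecidableEq (V × Sy)]

open Classical in
/-- The particles of `K` that are not excluded by `I`. -/
noncomputable def rmI (I K : Finset (V × Sy)) : Finset (V × Sy) :=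
  K.filter fun y => ∀ x ∈ I, ¬ NN μ sy x y

open Classical in
theorem mem_rmI (I K : Finset (V × Sy)) (y : V × Sy) :
    y ∈ rmI μ sy I K ↔ y ∈ K ∧ ∀ x ∈ I, ¬ NN μ sy x y := by
  rw [rmI, mem_filter]

/-- No two particles of `I` exclude each other. -/
def Ind (I : Finset (V × Sy)) : Prop := ∀ x ∈ I, ∀ y ∈ I, ¬ NN μ sy x y

/-- The hypothesis: compatible particles are independent. -/
def Prd : Prop := ∀ I : Finset (V × Sy), Ind μ sy I →
  μ.real {ω | ∀ x ∈ I, ω x.1 = sy x.2} = ∏ x ∈ I, qq μ sy x

theorem MK_of_not_ind (I K : Finset (V × Sy)) (h : ¬ Ind μ sy I) : MK μ sy I K = 0 := by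
  unfold Ind at h
  push Not at h
  obtain ⟨x, hx, y, hy, hN⟩ := h
  refine le_antisymm ?_ measureReal_nonneg
  rw [← hN.2]
  refine measureReal_mono fun ω hω => ?_
  exact ⟨hω.1 x hx, hω.1 y hy⟩

theorem ind_insert {I : Finset (V × Sy)} {y : V × Sy} :
    Ind μ sy (insert y I) ↔ Ind μ sy I ∧ ∀ x ∈ I, ¬ NN μ sy x y := by
  constructor
  · intro h
    exact ⟨fun x hx z hz => h x (mem_insert_of_mem hx) z (mem_insert_of_mem hz),
      fun x hx => h x (mem_insert_of_mem hx) y (mem_insert_self _ _)⟩
  · rintro ⟨h1, h2⟩ x hx z hz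
    rcases mem_insert.1 hx with hx | hx
    · rcases mem_insert.1 hz with hz | hz
      · rw [hx, hz]
        exact fun h => h.1 rfl
      · rw [hx]
        exact fun h => h2 z hz (NN_symm μ sy h)
    · rcases mem_insert.1 hz with hz | hz
      · rw [hz]
        exact h2 x hx
      · exact h1 x hx z hz

theorem MK_eq (hP : Prd μ sy) (n : ℕ) : ∀ I K : Finset (V × Sy), K.card ≤ n → Disjoint I K →
    Ind μ sy I → MK μ sy I K = (∏ x ∈ I, qq μ sy x) * ff μ sy (rmI μ sy I K) := by
  classical
  induction n with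
  | zero =>
    intro I K hK _ hI
    have h1 : K = ∅ := card_eq_zero.1 (Nat.le_zero.1 hK)
    subst h1
    have h2 : rmI μ sy I ∅ = ∅ := by
      ext y
      rw [mem_rmI]
      simp
    rw [h2, ff_empty, mul_one, ← hP I hI]
    unfold MK
    congr 1
    ext ω
    simp
  | succ n ih =>
    intro I K hK hd hI
    rcases K.eq_empty_or_nonempty with rfl | ⟨y, hy⟩
    · have h2 := ih I ∅ (by simp) hd hI
      exact h2
    · obtain ⟨K0, hy0, rfl⟩ : ∃ K0, y ∉ K0 ∧ K = insert y K0 :=
        ⟨K.erase y, notMem_erase y K, (insert_erase hy).symm⟩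
      rw [card_insert_of_notMem hy0] at hK
      have hK0 : K0.card ≤ n := by omega
      have hyI : y ∉ I := fun hh => disjoint_left.1 hd hh (mem_insert_self y K0)
      have hd0 : Disjoint I K0 := hd.mono_right (subset_insert y K0)
      rw [MK_insert, ih I K0 hK0 hd0 hI]
      by_cases hyc : ∀ x ∈ I, ¬ NN μ sy x y
      · have hI2 : Ind μ sy (insert y I) := (ind_insert μ sy).2 ⟨hI, hyc⟩
        have hd2 : Disjoint (insert y I) K0 := by
          rw [disjoint_insert_left]
          exact ⟨hy0, hd0⟩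
        rw [ih (insert y I) K0 hK0 hd2 hI2, prod_insert hyI]
        have e1 : rmI μ sy I (insert y K0) = insert y (rmI μ sy I K0) := by
          ext z
          rw [mem_rmI, mem_insert, mem_insert, mem_rmI]
          constructor
          · rintro ⟨rfl | h1, h2⟩
            · exact Or.inl rfl
            · exact Or.inr ⟨h1, h2⟩
          · rintro (rfl | h1)
            · exact ⟨Or.inl rfl, hyc⟩
            · exact ⟨Or.inr h1.1, h1.2⟩
        have hc1 : (rmI μ sy I K0).card ≤ n := by
          refine (card_le_card fun z hz => ?_).trans hK0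
          exact ((mem_rmI μ sy I K0 z).1 hz).1
        have hy1 : y ∉ rmI μ sy I K0 := fun hh => hy0 ((mem_rmI μ sy I K0 y).1 hh).1
        have e2 : ff μ sy (insert y (rmI μ sy I K0)) = ff μ sy (rmI μ sy I K0) -
            qq μ sy y * ff μ sy (rmI μ sy {y} (rmI μ sy I K0)) := by
          rw [← MK_empty_left, MK_insert, MK_empty_left]
          have h3 : Ind μ sy (insert y ∅) := by
            intro x hx z hz
            rw [insert_empty_eq, mem_singleton] at hx hz
            rw [hx, hz]
            exact fun h => h.1 rfl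
          rw [ih (insert y ∅) _ hc1 (by
            rw [insert_empty_eq, disjoint_singleton_left]
            exact hy1) h3, insert_empty_eq, prod_singleton]
        have e3 : rmI μ sy {y} (rmI μ sy I K0) = rmI μ sy (insert y I) K0 := by
          ext z
          rw [mem_rmI, mem_rmI, mem_rmI]
          simp only [mem_singleton, forall_eq, mem_insert, forall_eq_or_imp]
          tauto
        rw [e1, e2, e3]
        ring
      · have hI2 : ¬ Ind μ sy (insert y I) := fun hh => hyc ((ind_insert μ sy).1 hh).2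
        rw [MK_of_not_ind μ sy _ _ hI2, sub_zero]
        congr 2
        ext z
        rw [mem_rmI, mem_rmI, mem_insert]
        constructor
        · rintro ⟨h1, h2⟩
          exact ⟨Or.inr h1, h2⟩
        · rintro ⟨rfl | h1, h2⟩
          · exact absurd h2 hyc
          · exact ⟨h1, h2⟩

theorem ff_step (hP : Prd μ sy) [DecidableRel (NN μ sy)] (K : Finset (V × Sy)) (x : V × Sy)
    (hx : x ∉ K) : ff μ sy (insert x K) = ff μ sy K - qq μ sy x * ff μ sy (rm (NN μ sy) x K) := by
  rw [← MK_empty_left, MK_insert, MK_empty_left]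
  have h3 : Ind μ sy (insert x ∅) := by
    intro y hy z hz
    rw [insert_empty_eq, mem_singleton] at hy hz
    rw [hy, hz]
    exact fun h => h.1 rfl
  rw [MK_eq μ sy hP K.card (insert x ∅) K le_rfl (by
    rw [insert_empty_eq, disjoint_singleton_left]
    exact hx) h3, insert_empty_eq, prod_singleton]
  congr 3
  ext z
  rw [mem_rmI, rm, mem_filter]
  simp

end

end Pool.Agent.SH95
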