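import Pool.Agent.Lib.SH95.Cond
import Pool.Agent.Lib.SH95.Geom

/-!
# The model of an invariant finitely dependent process
-/

set_option autoImplicit false
set_option linter.unusedSectionVars false

open MeasureTheory Filter Topology

namespace Pool.Agent.SH95

open Finset Pool.Agent.FD82

section Inv

variable {V : Type} {G : SimpleGraph V} {k : ℕ} {Sy : Type} {sy : Sy → Fin (k + 1)}
  {μ : Measure (Cfg V k)}

theorem inv_real (hinv : Inv G μ) (g : G ≃g G) {S : Set (Cfg V k)} (hS : MeasurableSet S) :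
    μ.real {ω | (ω ∘ g : Cfg V k) ∈ S} = μ.real S := by
  have hm : Measurable (fun y : Cfg V k => (y ∘ g : Cfg V k)) :=
    measurable_pi_iff.2 fun v => measurable_pi_apply (g v)
  have h1 : μ.real S = (μ.map (fun y : Cfg V k => (y ∘ g : Cfg V k))).real S := by
    rw [hinv g]
  rw [h1, measureReal_def, measureReal_def, Measure.map_apply hm hS]
  rfl

theorem meas_void (sy : Sy → Fin (k + 1)) (K : Finset (V × Sy)) :
    MeasurableSet {ω : Cfg V k | ∀ x ∈ K, ω x.1 ≠ sy x.2} := by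
  have h1 : {ω : Cfg V k | ∀ x ∈ K, ω x.1 ≠ sy x.2} =
      ⋂ x ∈ K, {ω : Cfg V k | ω x.1 = sy x.2}ᶜ := by
    ext ω
    simp
  rw [h1]
  exact Finset.measurableSet_biInter K fun x _ => (meas_par sy x).compl

theorem site_inv (hinv : Inv G μ) (g : G ≃g G) (v : V) (a : Fin (k + 1)) :
    μ.real {ω | ω (g v) = a} = μ.real {ω | ω v = a} :=
  inv_real hinv g (measurableSet_site v a)

theorem NN_inv (hinv : Inv G μ) (g : G ≃g G) (x y : V × Sy) :
    NN μ sy (g x.1, x.2) (g y.1, y.2) ↔ NN μ sy x y := by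
  unfold NN
  have h1 : (g x.1, x.2) ≠ (g y.1, y.2) ↔ x ≠ y := by
    rw [ne_eq, ne_eq, Prod.mk.injEq, Prod.ext_iff, g.injective.eq_iff]
  have h2 : μ.real {ω : Cfg V k | ω (g x.1) = sy x.2 ∧ ω (g y.1) = sy y.2} =
      μ.real {ω : Cfg V k | ω x.1 = sy x.2 ∧ ω y.1 = sy y.2} :=
    inv_real hinv g ((meas_par sy x).inter (meas_par sy y))
  rw [h1]
  refine and_congr_right fun _ => ?_
  change μ.real {ω : Cfg V k | ω (g x.1) = sy x.2 ∧ ω (g y.1) = sy y.2} = 0 ↔ _
  rw [h2]

theorem ff_inv [DecidableEq (V × Sy)] (hinv : Inv G μ) (g : G ≃g G) (K : Finset (V × Sy)) :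
    ff μ sy (K.image fun x => (g x.1, x.2)) = ff μ sy K := by
  rw [← show μ.real {ω : Cfg V k | (ω ∘ g : Cfg V k) ∈ {ω : Cfg V k | ∀ x ∈ K, ω x.1 ≠ sy x.2}} =
    ff μ sy K from inv_real hinv g (meas_void sy K)]
  unfold ff
  congr 1
  ext ω
  simp only [Set.mem_ofPred_eq, mem_image, Function.comp_apply]
  constructor
  · intro h x hx
    exact h _ ⟨x, hx, rfl⟩
  · rintro h _ ⟨x, hx, rfl⟩
    exact h x hx

theorem qq_inv (hinv : Inv G μ) (g : G ≃g G) (x : V × Sy) :
    qq μ sy (g x.1, x.2) = qq μ sy x :=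
  site_inv hinv g x.1 (sy x.2)

end Inv

section Prod

variable {V : Type} {k : ℕ} {Sy : Type} {sy : Sy → Fin (k + 1)} {μ : Measure (Cfg V k)}

/-- Compatible particles are independent: the form of the main theorem. -/
def Hyp (μ : Measure (Cfg V k)) : Prop :=
  ∀ (I : Finset V) (c : V → Fin (k + 1)), (∀ v ∈ I, c v ≠ 0) →
    μ.real {ω | ∀ v ∈ I, ω v = c v} = ∏ v ∈ I, μ.real {ω | ω v = c v} ∨
      ∃ u ∈ I, ∃ v ∈ I, u ≠ v ∧ μ.real {ω | ω u = c u ∧ ω v = c v} = 0

theorem prd_of_hyp (hsy : Function.Injective sy) (h0 : ∀ b, sy b ≠ 0) (h : Hyp μ) :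
    Prd μ sy := by
  classical
  intro I hI
  have hinj : ∀ x ∈ I, ∀ y ∈ I, x.1 = y.1 → x = y := by
    intro x hx y hy hxy
    by_contra hne
    refine hI x hx y hy ⟨hne, ?_⟩
    have h1 : x.2 ≠ y.2 := fun he => hne (Prod.ext hxy he)
    have h2 : {ω : Cfg V k | ω x.1 = sy x.2 ∧ ω y.1 = sy y.2} = ∅ := by
      ext ω
      simp only [Set.mem_ofPred_eq, Set.mem_empty_iff_false, iff_false, not_and]
      intro a1 a2
      exact h1 (hsy (a1.symm.trans ((congrArg ω hxy).trans a2)))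
    rw [h2, measureReal_empty]
  set c : V → Fin (k + 1) := fun v => if h : ∃ x ∈ I, x.1 = v then sy h.choose.2 else 0 with hc
  have hcx : ∀ x ∈ I, c x.1 = sy x.2 := by
    intro x hx
    have h1 : ∃ x' ∈ I, x'.1 = x.1 := ⟨x, hx, rfl⟩
    rw [hc]
    simp only
    rw [dif_pos h1]
    rw [hinj _ h1.choose_spec.1 x hx h1.choose_spec.2]
  have hI' : ∀ v ∈ I.image Prod.fst, c v ≠ 0 := by
    intro v hv
    obtain ⟨x, hx, rfl⟩ := mem_image.1 hv
    rw [hcx x hx]
    exact h0 _
  have hset : {ω : Cfg V k | ∀ v ∈ I.image Prod.fst, ω v = c v} =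
      {ω | ∀ x ∈ I, ω x.1 = sy x.2} := by
    ext ω
    simp only [Set.mem_ofPred_eq, mem_image]
    constructor
    · intro h1 x hx
      rw [h1 _ ⟨x, hx, rfl⟩, hcx x hx]
    · rintro h1 _ ⟨x, hx, rfl⟩
      rw [h1 x hx, hcx x hx]
  rcases h (I.image Prod.fst) c hI' with h1 | ⟨u, hu, v, hv, huv, h1⟩
  · rw [hset, prod_image (fun x hx y hy hxy => hinj x hx y hy hxy)] at h1
    rw [h1]
    refine prod_congr rfl fun x hx => ?_
    rw [hcx x hx]
    rfl
  · exfalso
    obtain ⟨x, hx, rfl⟩ := mem_image.1 hu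
    obtain ⟨y, hy, rfl⟩ := mem_image.1 hv
    rw [hcx x hx, hcx y hy] at h1
    exact hI x hx y hy ⟨fun he => huv (congrArg Prod.fst he), h1⟩

end Prod

section Model

variable {V : Type} {G : SimpleGraph V} {k m : ℕ} {Sy : Type} [Fintype Sy]
  {sy : Sy → Fin (k + 1)} {μ : Measure (Cfg V k)} [IsProbabilityMeasure μ]
  [DecidableRel (NN μ sy)] [DecidableEq (V × Sy)]

theorem NN_range (hD : MDep G m μ) (hq : ∀ x, 0 < qq μ sy x) (x y : V × Sy)
    (h : NN μ sy x y) : G.dist x.1 y.1 ≤ m := by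
  classical
  by_contra hd
  push Not at hd
  have hxy : x.1 ≠ y.1 := by
    intro he
    rw [he, SimpleGraph.dist_self] at hd
    exact absurd hd (Nat.not_lt_zero _)
  have h1 := hD {x.1} {y.1} (by
    intro a ha b hb
    rw [mem_singleton] at ha hb
    rw [ha, hb]
    exact hd) (fun v => if v = x.1 then sy x.2 else sy y.2)
  have e1 : {ω : Cfg V k | ∀ v, (v ∈ ({x.1} : Finset V) ∨ v ∈ ({y.1} : Finset V)) →
      ω v = if v = x.1 then sy x.2 else sy y.2} = {ω | ω x.1 = sy x.2 ∧ ω y.1 = sy y.2} := by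
    ext ω
    simp only [Set.mem_ofPred_eq, mem_singleton]
    constructor
    · intro h2
      have a1 := h2 x.1 (Or.inl rfl)
      have a2 := h2 y.1 (Or.inr rfl)
      rw [if_pos rfl] at a1
      rw [if_neg hxy.symm] at a2
      exact ⟨a1, a2⟩
    · rintro ⟨a1, a2⟩ v (hv | hv)
      · rw [hv, if_pos rfl]
        exact a1
      · rw [hv, if_neg hxy.symm]
        exact a2
  have e2 : {ω : Cfg V k | ∀ v ∈ ({x.1} : Finset V), ω v = if v = x.1 then sy x.2 else sy y.2} =
      {ω | ω x.1 = sy x.2} := by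
    ext ω
    simp
  have e3 : {ω : Cfg V k | ∀ v ∈ ({y.1} : Finset V), ω v = if v = x.1 then sy x.2 else sy y.2} =
      {ω | ω y.1 = sy y.2} := by
    ext ω
    simp [hxy.symm]
  rw [e1, e2, e3, h.2] at h1
  have := mul_pos (hq x) (hq y)
  unfold qq at this
  rw [← h1] at this
  exact lt_irrefl _ this

/-- Positivity of the void probabilities. -/
theorem ff_pos {d : ℕ} (hd : 3 ≤ d) (hT : G.IsTree) (hreg : ∀ v, (G.neighborSet v).ncard = d)
    (hinv : Inv G μ) (hq : ∀ x, 0 < qq μ sy x) (hsy : Function.Injective sy) (hP : Prd μ sy)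
    (hcross : ∃ x y : V × Sy, x.1 ≠ y.1 ∧ NN μ sy x y) (K : Finset (V × Sy)) : 0 < ff μ sy K := by
  classical
  induction K using Finset.strongInduction with
  | H K ih =>
    by_contra hneg
    have hK0 : ff μ sy K = 0 := le_antisymm (not_lt.1 hneg) (ff_nonneg μ sy K)
    have hcl : ∀ x ∈ K, ∀ y, NN μ sy x y → y ∈ K := by
      intro x hx y hN
      by_contra hy
      have h1 := ff_step μ sy hP K y hy
      have h2 : rm (NN μ sy) y K ⊂ K := by
        refine (rm_subset y K).ssubset_of_ne fun he => ?_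
        have h3 : x ∈ rm (NN μ sy) y K := by rw [he]; exact hx
        unfold rm at h3
        exact (mem_filter.1 h3).2 (NN_symm μ sy hN)
      have h3 := mul_pos (hq y) (ih _ h2)
      have h4 := ff_nonneg μ sy (insert y K)
      rw [h1, hK0] at h4
      linarith
    have hne : K.Nonempty := by
      rw [nonempty_iff_ne_empty]
      intro he
      rw [he, ff_empty] at hK0
      exact one_ne_zero hK0
    obtain ⟨x0, hx0⟩ := hne
    obtain ⟨x, y, hxy, hN⟩ := hcross
    have hfib : ∀ w e e', (w, e) ∈ K → (w, e') ∈ K := by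
      intro w e e' he
      by_cases hee : e = e'
      · rw [← hee]
        exact he
      · refine hcl _ he _ ⟨fun h => hee (Prod.mk.inj h).2, ?_⟩
        have h2 : {ω : Cfg V k | ω w = sy e ∧ ω w = sy e'} = ∅ := by
          ext ω
          simp only [Set.mem_ofPred_eq, Set.mem_empty_iff_false, iff_false, not_and]
          intro a1 a2
          exact hee (hsy (a1.symm.trans a2))
        rw [h2, measureReal_empty]
    have hpos : 1 ≤ G.dist x.1 y.1 :=
      Nat.one_le_iff_ne_zero.2 fun h => hxy ((hT.1.dist_eq_zero_iff).1 h)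
    have hW := closed_empty hT hd hreg hpos (K.image Prod.fst : Finset V) (finite_toSet _) (by
      intro w hw w' hww
      rw [mem_coe, mem_image] at hw ⊢
      obtain ⟨x1, hx1, rfl⟩ := hw
      obtain ⟨g, hg1, hg2⟩ := exists_move hT (by omega) hreg x.1 y.1 x1.1 w' hww.symm
      have h1 : (x1.1, x.2) ∈ K := hfib x1.1 x1.2 x.2 hx1
      have h2 : NN μ sy (x1.1, x.2) (w', y.2) := by
        have := (NN_inv (sy := sy) hinv g x y).2 hN
        rwa [hg1, hg2] at this
      exact ⟨(w', y.2), hcl _ h1 _ h2, rfl⟩)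
    have h1 : x0.1 ∈ ((K.image Prod.fst : Finset V) : Set V) := by
      rw [mem_coe, mem_image]
      exact ⟨x0, hx0, rfl⟩
    rw [hW] at h1
    exact h1

theorem model {d : ℕ} (hd : 3 ≤ d) (hT : G.IsTree) (hreg : ∀ v, (G.neighborSet v).ncard = d)
    (hinv : Inv G μ) (hD : MDep G m μ) (hq : ∀ x, 0 < qq μ sy x) (hsy : Function.Injective sy)
    (h0 : ∀ b, sy b ≠ 0) (hP : Prd μ sy)
    (hcross : ∃ x y : V × Sy, x.1 ≠ y.1 ∧ NN μ sy x y) :
    Model G k m Sy sy (NN μ sy) (qq μ sy) (ff μ sy) where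
  void :=
    { symm := fun _ _ h => NN_symm μ sy h
      q0 := hq
      one := ff_empty μ sy
      pos := ff_pos hd hT hreg hinv hq hsy hP hcross
      step := fun K x hx => ff_step μ sy hP K x hx }
  inj := hsy
  ne0 := h0
  same := by
    intro v a b hab
    refine ⟨fun h => hab (Prod.mk.inj h).2, ?_⟩
    have h2 : {ω : Cfg V k | ω v = sy a ∧ ω v = sy b} = ∅ := by
      ext ω
      simp only [Set.mem_ofPred_eq, Set.mem_empty_iff_false, iff_false, not_and]
      intro a1 a2
      exact hab (hsy (a1.symm.trans a2))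
    rw [h2, measureReal_empty]
  range := fun x y h => NN_range hD hq x y h
  invN := fun g x y => NN_inv hinv g x y
  invf := fun g K => ff_inv hinv g K
  invq := fun g x => qq_inv hinv g x

end Model

end Pool.Agent.SH95
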